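import Pool.Agent.FTA.Elem

/-!
# FTO project (MP_59dda0_an), approximation part: formal power series and the `X`-adic topology

`EM_pow`: every matrix of determinant one over `ℤ⟦X⟧` is a product of transvections.
`trunc_EM`: products of transvections over power series are products of transvections over polynomials
modulo `X ^ T`.
-/

set_option autoImplicit false

namespace Pool.Agent.FTA

open Polynomial Matrix

section
variable {J : Type} [Fintype J] [DecidableEq J]

/-- the ring homomorphism from polynomials to power series -/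
noncomputable abbrev cP (R : Type) [CommRing R] : R[X] →+* PowerSeries R :=
  Polynomial.coeToPowerSeries.ringHom

/-- the trivial valuation with maximal ideal `(X)` -/
noncomputable def vX (f : PowerSeries ℤ) : ℝ := by
  classical exact if (PowerSeries.X : PowerSeries ℤ) ∣ f then 0 else 1

theorem vX_of_dvd {f : PowerSeries ℤ} (h : (PowerSeries.X : PowerSeries ℤ) ∣ f) : vX f = 0 := by
  unfold vX; exact if_pos h

theorem vX_of_not_dvd {f : PowerSeries ℤ} (h : ¬ (PowerSeries.X : PowerSeries ℤ) ∣ f) : vX f = 1 := by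
  unfold vX; exact if_neg h

theorem vX_cases (f : PowerSeries ℤ) : vX f = 0 ∧ (PowerSeries.X : PowerSeries ℤ) ∣ f ∨
    vX f = 1 ∧ ¬ (PowerSeries.X : PowerSeries ℤ) ∣ f := by
  by_cases h : (PowerSeries.X : PowerSeries ℤ) ∣ f
  · exact Or.inl ⟨vX_of_dvd h, h⟩
  · exact Or.inr ⟨vX_of_not_dvd h, h⟩

theorem vX_le_one (f : PowerSeries ℤ) : vX f ≤ 1 := by
  rcases vX_cases f with h | h <;> rw [h.1]
  norm_num

theorem vX_nonneg (f : PowerSeries ℤ) : 0 ≤ vX f := by
  rcases vX_cases f with h | h <;> rw [h.1]
  norm_num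

theorem snorm_vX : SNorm (PowerSeries ℤ) vX where
  nonneg := vX_nonneg
  zero := vX_of_dvd (dvd_zero _)
  one := vX_le_one _
  neg := fun x => by
    rcases vX_cases x with h | h
    · rw [h.1, vX_of_dvd (dvd_neg.2 h.2)]
    · rw [h.1, vX_of_not_dvd (fun h' => h.2 (dvd_neg.1 h'))]
  add := fun x y => by
    rcases vX_cases x with h | h
    · rcases vX_cases y with h' | h'
      · rw [vX_of_dvd (dvd_add h.2 h'.2), h.1, h'.1, add_zero]
      · rw [h.1, h'.1, zero_add]; exact vX_le_one _
    · rw [h.1]
      linarith [vX_le_one (x + y), vX_nonneg y]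
  mul := fun x y => by
    rcases vX_cases x with h | h
    · rw [vX_of_dvd (dvd_mul_of_dvd_left h.2 _), h.1, zero_mul]
    · rcases vX_cases y with h' | h'
      · rw [vX_of_dvd (dvd_mul_of_dvd_right h'.2 _), h'.1, mul_zero]
      · rw [h.1, h'.1, one_mul]; exact vX_le_one _
  unit := fun x hx => by
    have hd : (PowerSeries.X : PowerSeries ℤ) ∣ x := by
      rcases vX_cases x with h | h
      · exact h.2
      · rw [h.1] at hx; norm_num at hx
    have hu : IsUnit (1 + x) := by
      rw [PowerSeries.isUnit_iff_constantCoeff, map_add, map_one,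
        PowerSeries.X_dvd_iff.1 hd, add_zero]
      exact isUnit_one
    obtain ⟨v, hv⟩ := hu.exists_right_inv
    exact ⟨v, hv, (vX_le_one v).trans (by norm_num)⟩

theorem EM_one_mod {A : Matrix J J (PowerSeries ℤ)} (hA : A.det = 1)
    (h : ∀ i j, (PowerSeries.X : PowerSeries ℤ) ∣ (A - 1) i j) : A ∈ EM J (PowerSeries ℤ) := by
  obtain ⟨δ, hδ, hn⟩ := snorm_vX.near J
  exact hn A hA fun i j => by rw [vX_of_dvd (h i j)]; exact hδ.le

/-- `SL_J(ℤ⟦X⟧)` is generated by transvections -/
theorem EM_pow (A : Matrix J J (PowerSeries ℤ)) (hA : A.det = 1) : A ∈ EM J (PowerSeries ℤ) := by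
  set A0 : Matrix J J ℤ := A.map (PowerSeries.constantCoeff : PowerSeries ℤ →+* ℤ) with hA0
  have h1 : A0.det = 1 := by
    have : A0.det = (PowerSeries.constantCoeff : PowerSeries ℤ →+* ℤ) A.det := by
      rw [RingHom.map_det]; rfl
    rw [this, hA, map_one]
  have h2 := EM_ringHom (PowerSeries.C : ℤ →+* PowerSeries ℤ) (SLZ J A0 h1)
  obtain ⟨B, hB, hB1, hB2⟩ := EM_inv h2
  apply EM_of_mul_left hB
  apply EM_one_mod
  · rw [det_mul, EM_det hB, hA, one_mul]
  · have hz : ∀ i j, (PowerSeries.X : PowerSeries ℤ) ∣ (A - A0.map (PowerSeries.C : ℤ →+* PowerSeries ℤ)) i j := by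
      intro i j
      rw [PowerSeries.X_dvd_iff, Matrix.sub_apply, map_sub]
      simp [A0]
    intro i j
    have h3 : B * A - 1 = B * (A - A0.map (PowerSeries.C : ℤ →+* PowerSeries ℤ)) := by
      rw [Matrix.mul_sub, hB2]
    rw [h3, Matrix.mul_apply]
    exact Finset.dvd_sum fun l _ => dvd_mul_of_dvd_right (hz l j) _

/-- a product of transvections over power series is, modulo `X ^ T`, a product of transvections
over polynomials -/
theorem trunc_EM {R : Type} [CommRing R] {A : Matrix J J (PowerSeries R)}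
    (hA : A ∈ EM J (PowerSeries R)) (T : ℕ) :
    ∃ G ∈ EM J R[X], ∀ i j, (PowerSeries.X : PowerSeries R) ^ T ∣ (G.map (cP R) - A) i j := by
  induction hA using Submonoid.closure_induction with
  | mem x hx =>
    obtain ⟨i, j, h, c, rfl⟩ := hx
    refine ⟨transvection i j (PowerSeries.trunc T c), tr_mem h _, ?_⟩
    intro a b
    have h1 : ((transvection i j (PowerSeries.trunc T c)).map (cP R) - transvection i j c) a b
        = if i = a ∧ j = b then ((PowerSeries.trunc T c : R[X]) : PowerSeries R) - c else 0 := by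
      rw [Matrix.sub_apply, Matrix.map_apply]
      simp only [transvection, Matrix.add_apply, Matrix.one_apply, Matrix.single_apply, map_add]
      by_cases h2 : i = a ∧ j = b
      · rw [if_pos h2, if_pos h2, if_pos h2]
        split_ifs <;> simp
      · rw [if_neg h2, if_neg h2, if_neg h2]
        split_ifs <;> simp
    rw [h1]
    split_ifs
    · rw [PowerSeries.X_pow_dvd_iff]
      intro m hm
      rw [map_sub, Polynomial.coeff_coe, PowerSeries.coeff_trunc, if_pos hm, sub_self]
    · exact dvd_zero _
  | one =>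
    refine ⟨1, one_mem _, ?_⟩
    intro a b
    rw [Matrix.map_one _ (map_zero _) (map_one _), sub_self]
    exact dvd_zero _
  | mul x y _ _ hx hy =>
    obtain ⟨G, hG, h1⟩ := hx
    obtain ⟨H, hH, h2⟩ := hy
    refine ⟨G * H, mul_mem hG hH, ?_⟩
    intro a b
    have h3 : (G * H).map (cP R) - x * y
        = (G.map (cP R) - x) * H.map (cP R) + x * (H.map (cP R) - y) := by
      rw [Matrix.map_mul, Matrix.sub_mul, Matrix.mul_sub]
      abel
    rw [h3, Matrix.add_apply, Matrix.mul_apply, Matrix.mul_apply]
    exact dvd_add (Finset.dvd_sum fun l _ => dvd_mul_of_dvd_left (h1 a l) _)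
      (Finset.dvd_sum fun l _ => dvd_mul_of_dvd_right (h2 l b) _)

end

end Pool.Agent.FTA
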