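import Mathlib

/-!
# FTO project (MP_59dda0_an), approximation part: elementary matrices over commutative rings

`EM J R`: the monoid generated by the transvections. `SLZ`: the integral case (helper91).
`near`: matrices of determinant one near the identity are products of transvections, for a ring with
a norm such that elements near one are invertible.
-/

set_option autoImplicit false

namespace Pool.Agent.FTA

open Polynomial Matrix

/-- the monoid generated by the elementary matrices `1 + c E_ij`, `i ≠ j` -/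
def EM (J : Type) [Fintype J] [DecidableEq J] (R : Type) [CommRing R] : Submonoid (Matrix J J R) :=
  Submonoid.closure {A | ∃ i j : J, i ≠ j ∧ ∃ c : R, A = transvection i j c}

section basic
variable {J K L : Type} [Fintype J] [DecidableEq J] [Fintype K] [DecidableEq K]
  [Fintype L] [DecidableEq L] {R S : Type} [CommRing R] [CommRing S]

theorem tr_mem {i j : J} (h : i ≠ j) (c : R) : transvection i j c ∈ EM J R :=
  Submonoid.subset_closure ⟨i, j, h, c, rfl⟩

theorem EM_map (f : Matrix J J R →* Matrix K K S)
    (hf : ∀ (i j : J), i ≠ j → ∀ c : R, f (transvection i j c) ∈ EM K S)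
    {A : Matrix J J R} (hA : A ∈ EM J R) : f A ∈ EM K S := by
  induction hA using Submonoid.closure_induction with
  | mem x hx => obtain ⟨i, j, h, c, rfl⟩ := hx; exact hf i j h c
  | one => rw [map_one]; exact one_mem _
  | mul x y _ _ hx hy => rw [map_mul]; exact mul_mem hx hy

theorem EM_inv {A : Matrix J J R} (hA : A ∈ EM J R) : ∃ B ∈ EM J R, A * B = 1 ∧ B * A = 1 := by
  induction hA using Submonoid.closure_induction with
  | mem x hx =>
    obtain ⟨i, j, h, c, rfl⟩ := hx
    refine ⟨transvection i j (-c), tr_mem h _, ?_, ?_⟩ <;>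
    rw [transvection_mul_transvection_same i j h] <;> simp
  | one => exact ⟨1, one_mem _, by simp, by simp⟩
  | mul x y _ _ hx hy =>
    obtain ⟨x', hx', h1, h2⟩ := hx
    obtain ⟨y', hy', h3, h4⟩ := hy
    refine ⟨y' * x', mul_mem hy' hx', ?_, ?_⟩
    · calc x * y * (y' * x') = x * (y * y') * x' := by simp only [Matrix.mul_assoc]
        _ = 1 := by rw [h3, Matrix.mul_one, h1]
    · calc y' * x' * (x * y) = y' * (x' * x) * y := by simp only [Matrix.mul_assoc]
        _ = 1 := by rw [h2, Matrix.mul_one, h4]

theorem EM_of_mul_left {E A : Matrix J J R} (hE : E ∈ EM J R) (h : E * A ∈ EM J R) : A ∈ EM J R := by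
  obtain ⟨B, hB, _, h2⟩ := EM_inv hE
  have : A = B * (E * A) := by rw [← Matrix.mul_assoc, h2, Matrix.one_mul]
  rw [this]; exact mul_mem hB h

theorem EM_of_mul_right {E A : Matrix J J R} (hE : E ∈ EM J R) (h : A * E ∈ EM J R) : A ∈ EM J R := by
  obtain ⟨B, hB, h1, _⟩ := EM_inv hE
  have : A = (A * E) * B := by rw [Matrix.mul_assoc, h1, Matrix.mul_one]
  rw [this]; exact mul_mem h hB

theorem EM_reindex (e : J ≃ K) {A : Matrix J J R} (hA : A ∈ EM J R) :
    reindex e e A ∈ EM K R := by
  refine EM_map ((reindexAlgEquiv R R e : Matrix J J R →* Matrix K K R)) ?_ hA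
  intro i j h c
  have : (reindexAlgEquiv R R e : Matrix J J R →* Matrix K K R) (transvection i j c)
      = transvection (e i) (e j) c := by
    ext a b
    simp [transvection, Matrix.one_apply, Matrix.single_apply, ← Equiv.symm_apply_eq]
  rw [this]
  exact tr_mem (fun h' => h (e.injective h')) c

theorem EM_ringHom (φ : R →+* S) {A : Matrix J J R} (hA : A ∈ EM J R) : A.map φ ∈ EM J S := by
  refine EM_map ((φ.mapMatrix : Matrix J J R →+* Matrix J J S) : Matrix J J R →* Matrix J J S) ?_ hA
  intro i j h c
  have : ((φ.mapMatrix : Matrix J J R →+* Matrix J J S) : Matrix J J R →* Matrix J J S) (transvection i j c) =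
      transvection i j (φ c) := by
    ext a b : 2
    simp only [transvection, MonoidHom.coe_coe, RingHom.mapMatrix_apply, Matrix.map_apply,
      Matrix.add_apply, Matrix.one_apply, Matrix.single_apply, map_add]
    split_ifs <;> simp
  rw [this]
  exact tr_mem h _

theorem EM_blk (K : Type) [Fintype K] [DecidableEq K] {A : Matrix J J R} (hA : A ∈ EM J R) :
    (fromBlocks A 0 0 1 : Matrix (J ⊕ K) (J ⊕ K) R) ∈ EM (J ⊕ K) R := by
  let f : Matrix J J R →* Matrix (J ⊕ K) (J ⊕ K) R :=
    { toFun := fun A => fromBlocks A 0 0 1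
      map_one' := fromBlocks_one
      map_mul' := fun A B => by simp [fromBlocks_multiply] }
  refine EM_map f ?_ hA
  intro i j h c
  have : f (transvection i j c) = transvection (Sum.inl i) (Sum.inl j) c := by
    ext a b
    rcases a with a | a <;> rcases b with b | b <;>
    simp [f, transvection, Matrix.one_apply, Matrix.single_apply]
  rw [this]
  exact tr_mem (by simpa using h) c

theorem EM_upper (X : Matrix J K R) : (fromBlocks 1 X 0 1 : Matrix (J ⊕ K) (J ⊕ K) R) ∈ EM (J ⊕ K) R := by
  induction X using Matrix.induction_on' with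
  | h_zero => rw [fromBlocks_one]; exact one_mem _
  | h_add p q hp hq =>
    have : (fromBlocks 1 (p + q) 0 1 : Matrix (J ⊕ K) (J ⊕ K) R) =
        fromBlocks 1 p 0 1 * fromBlocks 1 q 0 1 := by
      simp [fromBlocks_multiply, add_comm]
    rw [this]; exact mul_mem hp hq
  | h_std_basis i j x =>
    have : (fromBlocks 1 (single i j x) 0 1 : Matrix (J ⊕ K) (J ⊕ K) R) =
        transvection (Sum.inl i) (Sum.inr j) x := by
      ext a b
      rcases a with a | a <;> rcases b with b | b <;>
      simp [transvection, Matrix.one_apply, Matrix.single_apply]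
    rw [this]; exact tr_mem (by simp) x

theorem EM_lower (X : Matrix K J R) : (fromBlocks 1 0 X 1 : Matrix (J ⊕ K) (J ⊕ K) R) ∈ EM (J ⊕ K) R := by
  induction X using Matrix.induction_on' with
  | h_zero => rw [fromBlocks_one]; exact one_mem _
  | h_add p q hp hq =>
    have : (fromBlocks 1 0 (p + q) 1 : Matrix (J ⊕ K) (J ⊕ K) R) =
        fromBlocks 1 0 p 1 * fromBlocks 1 0 q 1 := by
      simp [fromBlocks_multiply]
    rw [this]; exact mul_mem hp hq
  | h_std_basis i j x =>
    have : (fromBlocks 1 0 (single i j x) 1 : Matrix (J ⊕ K) (J ⊕ K) R) =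
        transvection (Sum.inr i) (Sum.inl j) x := by
      ext a b
      rcases a with a | a <;> rcases b with b | b <;>
      simp [transvection, Matrix.one_apply, Matrix.single_apply]
    rw [this]; exact tr_mem (by simp) x

theorem EM_det {A : Matrix J J R} (hA : A ∈ EM J R) : A.det = 1 := by
  induction hA using Submonoid.closure_induction with
  | mem x hx => obtain ⟨i, j, h, c, rfl⟩ := hx; exact det_transvection_of_ne i j h c
  | one => exact det_one
  | mul x y _ _ hx hy => rw [det_mul, hx, hy, one_mul]

theorem tr_mulVec (i j : J) (c : R) (v : J → R) :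
    transvection i j c *ᵥ v = Function.update v i (v i + c * v j) := by
  ext k
  simp only [transvection, add_mulVec, one_mulVec, Pi.add_apply, single_mulVec]
  by_cases h : k = i
  · subst h; simp
  · simp [h]

end basic

section int
variable {J : Type} [Fintype J] [DecidableEq J]

theorem euclid_aux (j0 : J) : ∀ (n : ℕ) (v : J → ℤ), v j0 ≠ 0 → ∑ k, (v k).natAbs = n →
    ∃ g ∈ EM J ℤ, ∀ i, i ≠ j0 → (g *ᵥ v) i = 0 := by
  intro n
  induction n using Nat.strong_induction_on with
  | _ n ih =>
    intro v hv hn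
    by_cases hall : ∀ i, i ≠ j0 → v i = 0
    · exact ⟨1, one_mem _, by simpa using hall⟩
    push Not at hall
    obtain ⟨i, hi, hvi⟩ := hall
    -- reduce the entry `a` by the entry `b`
    have key : ∀ a b : J, a ≠ b → v a ≠ 0 → v b ≠ 0 → (v b).natAbs ≤ (v a).natAbs →
        (a = j0 → (v b).natAbs < (v a).natAbs) → ∃ g ∈ EM J ℤ, ∀ i, i ≠ j0 → (g *ᵥ v) i = 0 := by
      intro a b hab ha hb hle hlt
      obtain ⟨c, hc⟩ : ∃ c : ℤ, (v a + c * v b).natAbs = (v a).natAbs - (v b).natAbs := by
        rcases le_total 0 (v a) with h1 | h1 <;> rcases le_total 0 (v b) with h2 | h2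
        · exact ⟨-1, by omega⟩
        · exact ⟨1, by omega⟩
        · exact ⟨1, by omega⟩
        · exact ⟨-1, by omega⟩
      set v' := Function.update v a (v a + c * v b) with hv'
      have hsum : ∑ k, (v' k).natAbs < n := by
        rw [← hn]
        apply Finset.sum_lt_sum
        · intro k _
          by_cases hk : k = a
          · subst hk; simp only [hv', Function.update_self]; omega
          · simp [hv', hk]
        · exact ⟨a, Finset.mem_univ _, by simp only [hv', Function.update_self]; omega⟩
      have hv0 : v' j0 ≠ 0 := by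
        by_cases hk : j0 = a
        · subst hk
          have := hlt rfl
          simp only [hv', Function.update_self]; omega
        · simpa [hv', hk] using hv
      obtain ⟨g, hg, hg0⟩ := ih _ hsum v' hv0 rfl
      refine ⟨g * transvection a b c, mul_mem hg (tr_mem hab c), ?_⟩
      intro k hk
      rw [← mulVec_mulVec, tr_mulVec]
      exact hg0 k hk
    rcases le_or_gt (v j0).natAbs (v i).natAbs with hle | hgt
    · exact key i j0 hi hvi hv hle (fun h => absurd h hi)
    · exact key j0 i (Ne.symm hi) hv hvi hgt.le (fun _ => hgt)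

theorem euclid (j0 : J) (v : J → ℤ) : ∃ g ∈ EM J ℤ, ∀ i, i ≠ j0 → (g *ᵥ v) i = 0 := by
  by_cases h0 : v j0 ≠ 0
  · exact euclid_aux j0 _ v h0 rfl
  push Not at h0
  by_cases hall : ∀ i, i ≠ j0 → v i = 0
  · exact ⟨1, one_mem _, by simpa using hall⟩
  push Not at hall
  obtain ⟨i, hi, hvi⟩ := hall
  obtain ⟨g, hg, hg0⟩ := euclid_aux j0 _ (transvection j0 i 1 *ᵥ v)
    (by rw [tr_mulVec]; simpa [h0] using hvi) rfl
  refine ⟨g * transvection j0 i 1, mul_mem hg (tr_mem (Ne.symm hi) 1), ?_⟩
  intro k hk
  rw [← mulVec_mulVec]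
  exact hg0 k hk

/-- induction over finite types -/
theorem type_induction (P : (J : Type) → [Fintype J] → [DecidableEq J] → Prop)
    (h0 : P (Fin 0)) (hstep : ∀ n : ℕ, P (Fin n) → P (Fin n ⊕ Fin 1))
    (hequiv : ∀ (J K : Type) [Fintype J] [DecidableEq J] [Fintype K] [DecidableEq K], J ≃ K → P J → P K) :
    ∀ (J : Type) [Fintype J] [DecidableEq J], P J := by
  intro J _ _
  have h : ∀ n : ℕ, P (Fin n) := by
    intro n
    induction n with
    | zero => exact h0
    | succ n ih => exact hequiv _ _ finSumFinEquiv (hstep n ih)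
  exact hequiv _ _ (Fintype.equivFin J).symm (h _)

/-- `SL_J(ℤ)` is generated by elementary matrices -/
theorem SLZ : ∀ (J : Type) [Fintype J] [DecidableEq J] (A : Matrix J J ℤ), A.det = 1 → A ∈ EM J ℤ := by
  refine type_induction (fun J _ _ => ∀ (A : Matrix J J ℤ), A.det = 1 → A ∈ EM J ℤ) ?_ ?_ ?_
  · intro A _
    have : A = 1 := Subsingleton.elim _ _
    rw [this]; exact one_mem _
  · intro n ih A hA
    -- reduction of the last column
    obtain ⟨g, hg, hg0⟩ := euclid (Sum.inr 0 : Fin n ⊕ Fin 1) (fun i => A i (Sum.inr 0))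
    have hcol : ∀ i, (g * A) i (Sum.inr 0) = (g *ᵥ (fun i => A i (Sum.inr 0))) i := by
      intro i; simp [Matrix.mul_apply, mulVec, dotProduct]
    apply EM_of_mul_left hg
    have hdet : (g * A).det = 1 := by rw [det_mul, EM_det hg, hA, one_mul]
    generalize g * A = B at hcol hdet
    have hB0 : ∀ i : Fin n, B (Sum.inl i) (Sum.inr 0) = 0 := fun i => by
      rw [hcol]; exact hg0 _ (by simp)
    clear hcol hg0 hg
    -- the case where the corner is `1`
    have main : ∀ B : Matrix (Fin n ⊕ Fin 1) (Fin n ⊕ Fin 1) ℤ, B.det = 1 →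
        (∀ i : Fin n, B (Sum.inl i) (Sum.inr 0) = 0) → B (Sum.inr 0) (Sum.inr 0) = 1 →
        B ∈ EM (Fin n ⊕ Fin 1) ℤ := by
      intro B hdet hB0 hB1
      have hB : B = fromBlocks B.toBlocks₁₁ 0 B.toBlocks₂₁ 1 := by
        rw [← fromBlocks_toBlocks B]
        congr 1
        · ext i j; fin_cases j; simp [toBlocks₁₂, hB0]
        · ext i j; fin_cases i; fin_cases j; simp [toBlocks₂₂, hB1]
      have h1 : B.toBlocks₁₁.det = 1 := by
        rw [hB, det_fromBlocks_zero₁₂] at hdet
        simpa using hdet
      have h2 : B = fromBlocks B.toBlocks₁₁ 0 0 1 * fromBlocks 1 0 B.toBlocks₂₁ 1 := by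
        rw [fromBlocks_multiply]
        simpa using hB
      rw [h2]
      exact mul_mem (EM_blk _ (ih _ h1)) (EM_lower _)
    have hcorner : B (Sum.inr 0) (Sum.inr 0) = 1 ∨ B (Sum.inr 0) (Sum.inr 0) = -1 := by
      have hB : B = fromBlocks B.toBlocks₁₁ 0 B.toBlocks₂₁ B.toBlocks₂₂ := by
        rw [← fromBlocks_toBlocks B]
        congr 1
        ext i j; fin_cases j; simp [toBlocks₁₂, hB0]
      rw [hB, det_fromBlocks_zero₁₂] at hdet
      have h3 : B.toBlocks₂₂.det = B (Sum.inr 0) (Sum.inr 0) := by
        rw [det_fin_one]; rfl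
      rw [h3] at hdet
      exact Int.isUnit_iff.mp (IsUnit.of_mul_eq_one_right _ hdet)
    rcases hcorner with h | h
    · exact main B hdet hB0 h
    · -- change the sign
      obtain ⟨a⟩ : Nonempty (Fin n) := by
        by_contra hne
        rw [not_nonempty_iff] at hne
        have : B.det = B (Sum.inr 0) (Sum.inr 0) := by
          rw [← det_submatrix_equiv_self (Equiv.emptySum (Fin n) (Fin 1)).symm B, det_fin_one]
          simp
        omega
      set E := transvection (Sum.inl a : Fin n ⊕ Fin 1) (Sum.inr 0) (-1 : ℤ) *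
        (transvection (Sum.inr 0 : Fin n ⊕ Fin 1) (Sum.inl a) (2 : ℤ) *
         transvection (Sum.inl a : Fin n ⊕ Fin 1) (Sum.inr 0) (-1 : ℤ)) with hE
      have hEmem : E ∈ EM (Fin n ⊕ Fin 1) ℤ :=
        mul_mem (tr_mem (by simp) _) (mul_mem (tr_mem (by simp) _) (tr_mem (by simp) _))
      apply EM_of_mul_left hEmem
      have hcol : ∀ i, (E * B) i (Sum.inr 0) = (E *ᵥ (fun i => B i (Sum.inr 0))) i := by
        intro i; simp [Matrix.mul_apply, mulVec, dotProduct]
      have hv : E *ᵥ (fun i => B i (Sum.inr 0)) = Pi.single (Sum.inr 0) 1 := by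
        rw [hE, ← mulVec_mulVec, ← mulVec_mulVec, tr_mulVec, tr_mulVec, tr_mulVec]
        ext i
        rcases i with i | i
        · by_cases hi : i = a
          · subst hi; simp [h, hB0]
          · simp [hi, hB0]
        · fin_cases i
          simp [h, hB0]
      apply main
      · rw [det_mul, EM_det hEmem, hdet, one_mul]
      · intro i; rw [hcol, hv]; simp
      · rw [hcol, hv]; simp
  · intro J K _ _ _ _ e ih A hA
    have h1 : (reindex e.symm e.symm A).det = 1 := by rw [det_reindex_self]; exact hA
    have h2 := EM_reindex e (ih _ h1)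
    convert h2 using 1
    ext i j; simp

end int

section norm

/-- entries of a product with a transvection -/
theorem tr_mul_apply {J : Type} [Fintype J] [DecidableEq J] {R : Type} [CommRing R] (i j : J) (c : R)
    (A : Matrix J J R) (a b : J) :
    (transvection i j c * A) a b = A a b + if a = i then c * A j b else 0 := by
  rw [transvection, Matrix.add_mul, Matrix.one_mul, Matrix.add_apply]
  congr 1
  by_cases h : a = i
  · subst h
    rw [if_pos rfl, single_mul_apply_same]
  · rw [if_neg h, single_mul_apply_of_ne _ _ _ _ _ h]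

/-- a submultiplicative norm such that the elements near one are invertible -/
structure SNorm (S : Type) [CommRing S] (N : S → ℝ) : Prop where
  nonneg : ∀ x, 0 ≤ N x
  zero : N 0 = 0
  one : N 1 ≤ 1
  neg : ∀ x, N (-x) = N x
  add : ∀ x y, N (x + y) ≤ N x + N y
  mul : ∀ x y, N (x * y) ≤ N x * N y
  unit : ∀ x, N x ≤ 1 / 2 → ∃ v, (1 + x) * v = 1 ∧ N v ≤ 2

namespace SNorm

variable {S : Type} [CommRing S] {N : S → ℝ}

theorem sub (h : SNorm S N) (x y : S) : N (x - y) ≤ N x + N y := by
  rw [sub_eq_add_neg, ← h.neg y]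
  exact h.add _ _

theorem mul_le (h : SNorm S N) {x y : S} {a b : ℝ} (ha : 0 ≤ a) (hx : N x ≤ a) (hy : N y ≤ b) :
    N (x * y) ≤ a * b :=
  (h.mul x y).trans (mul_le_mul hx hy (h.nonneg y) ha)

/-- the corner can be made equal to one -/
theorem corner (h : SNorm S N) {J : Type} [Fintype J] [DecidableEq J] {e o : J} (heo : e ≠ o)
    {δ : ℝ} (hδ0 : 0 ≤ δ) (hδ : δ ≤ 1 / 10) (A : Matrix J J S)
    (hA : ∀ i j, N ((A - 1) i j) ≤ δ) :
    ∃ E ∈ EM J S, (E * A) o o = 1 ∧ ∀ i j, N ((E * A - 1) i j) ≤ 10 * δ := by
  have hAn : ∀ i j, N (A i j) ≤ 2 := by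
    intro i j
    have h1 : A i j = (A - 1) i j + (1 : Matrix J J S) i j := by simp
    have h2 : N ((1 : Matrix J J S) i j) ≤ 1 := by
      by_cases hij : i = j
      · subst hij; rw [Matrix.one_apply_eq]; exact h.one
      · rw [Matrix.one_apply_ne hij, h.zero]; norm_num
    rw [h1]
    have := h.add ((A - 1) i j) ((1 : Matrix J J S) i j)
    linarith [hA i j]
  have ho : N (A o o - 1) ≤ δ := by simpa using hA o o
  have he : N (A e o) ≤ δ := by
    have := hA e o
    rwa [Matrix.sub_apply, Matrix.one_apply_ne heo, sub_zero] at this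
  obtain ⟨v, hv1, hv2⟩ := h.unit (A e o + (A o o - 1)) (by linarith [h.add (A e o) (A o o - 1)])
  have hw : (A e o + A o o) * v = 1 := by rw [← hv1]; ring
  set α : S := (1 - A o o) * v with hα
  have hαn : N α ≤ δ * 2 := by
    refine h.mul_le hδ0 ?_ hv2
    rw [← h.neg, neg_sub]; exact ho
  set E : Matrix J J S := transvection e o (-1) * (transvection o e α * transvection e o 1) with hE
  have hEm : E ∈ EM J S := mul_mem (tr_mem heo _) (mul_mem (tr_mem heo.symm _) (tr_mem heo _))
  have hentry : ∀ i j, (E * A) i j = A i j + (if i = o then α * (A e j + A o j) else 0)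
      - (if i = e then α * (A e j + A o j) else 0) := by
    intro i j
    rw [hE, Matrix.mul_assoc, Matrix.mul_assoc, tr_mul_apply, tr_mul_apply, tr_mul_apply,
      tr_mul_apply, tr_mul_apply, tr_mul_apply, tr_mul_apply]
    by_cases h1 : i = e
    · subst h1
      simp [heo, heo.symm]
      ring
    · by_cases h2 : i = o
      · subst h2
        simp [heo, heo.symm]
      · simp [h1, h2]
  refine ⟨E, hEm, ?_, ?_⟩
  · rw [hentry, if_pos rfl, if_neg heo.symm, sub_zero, hα]
    have : (1 - A o o) * v * (A e o + A o o) = (1 - A o o) * ((A e o + A o o) * v) := by ring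
    rw [this, hw]; ring
  · intro i j
    have hb : N (α * (A e j + A o j)) ≤ δ * 2 * 4 :=
      h.mul_le (by linarith) hαn (by linarith [h.add (A e j) (A o j), hAn e j, hAn o j])
    rw [Matrix.sub_apply, hentry]
    by_cases h1 : i = e
    · rw [if_neg (h1 ▸ heo), if_pos h1]
      have h3 : A i j + 0 - α * (A e j + A o j) - (1 : Matrix J J S) i j
          = (A - 1) i j - α * (A e j + A o j) := by
        rw [Matrix.sub_apply]; ring
      rw [h3]
      linarith [h.sub ((A - 1) i j) (α * (A e j + A o j)), hA i j]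
    · rw [if_neg h1]
      by_cases h2 : i = o
      · rw [if_pos h2]
        have h3 : A i j + α * (A e j + A o j) - 0 - (1 : Matrix J J S) i j
            = (A - 1) i j + α * (A e j + A o j) := by
          rw [Matrix.sub_apply]; ring
        rw [h3]
        linarith [h.add ((A - 1) i j) (α * (A e j + A o j)), hA i j]
      · rw [if_neg h2]
        have h3 : A i j + 0 - 0 - (1 : Matrix J J S) i j = (A - 1) i j := by
          rw [Matrix.sub_apply]; ring
        rw [h3]
        linarith [hA i j]

/-- matrices of determinant one near the identity are products of transvections -/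
theorem near (h : SNorm S N) : ∀ (J : Type) [Fintype J] [DecidableEq J],
    ∃ δ : ℝ, 0 < δ ∧ ∀ A : Matrix J J S, A.det = 1 → (∀ i j, N ((A - 1) i j) ≤ δ) →
      A ∈ EM J S := by
  refine type_induction (fun J _ _ => ∃ δ : ℝ, 0 < δ ∧ ∀ A : Matrix J J S, A.det = 1 →
    (∀ i j, N ((A - 1) i j) ≤ δ) → A ∈ EM J S) ?_ ?_ ?_
  · refine ⟨1, one_pos, fun A _ _ => ?_⟩
    have : A = 1 := Subsingleton.elim _ _
    rw [this]; exact one_mem _
  · rintro n ⟨δ, hδ, ih⟩
    rcases Nat.eq_zero_or_pos n with rfl | hn
    · refine ⟨1, one_pos, fun A hA _ => ?_⟩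
      have h1 : A.det = A (Sum.inr 0) (Sum.inr 0) := by
        rw [← det_submatrix_equiv_self (Equiv.emptySum (Fin 0) (Fin 1)).symm A, det_fin_one]
        simp
      have : A = 1 := by
        ext i j
        rcases i with i | i
        · exact i.elim0
        rcases j with j | j
        · exact j.elim0
        have hi : i = 0 := Subsingleton.elim _ _
        have hj : j = 0 := Subsingleton.elim _ _
        rw [hi, hj, ← h1, hA, Matrix.one_apply_eq]
      rw [this]; exact one_mem _
    · have hδ' : 0 < min (1 / 10) (δ / 20) := lt_min (by norm_num) (by positivity)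
      refine ⟨min (1 / 10) (δ / 20), hδ', fun A hA hAn => ?_⟩
      set δ' : ℝ := min (1 / 10) (δ / 20) with hδ'e
      have hd1 : δ' ≤ 1 / 10 := min_le_left _ _
      have hd2 : δ' ≤ δ / 20 := min_le_right _ _
      have heo : (Sum.inl ⟨0, hn⟩ : Fin n ⊕ Fin 1) ≠ Sum.inr 0 := by simp
      obtain ⟨E, hE, hE1, hE2⟩ := h.corner heo hδ'.le hd1 A hAn
      apply EM_of_mul_left hE
      have hdet : (E * A).det = 1 := by rw [det_mul, EM_det hE, hA, one_mul]
      generalize E * A = B at hE1 hE2 hdet
      clear hE hAn hA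
      set P := B.toBlocks₁₁ with hP
      set q := B.toBlocks₁₂ with hq
      set s := B.toBlocks₂₁ with hs
      have hB : B = fromBlocks P q s 1 := by
        rw [← fromBlocks_toBlocks B]
        congr 1
        ext i j
        have hi : i = 0 := Subsingleton.elim _ _
        have hj : j = 0 := Subsingleton.elim _ _
        rw [hi, hj, Matrix.one_apply_eq]
        exact hE1
      have hdec : B = fromBlocks 1 q 0 1 * (fromBlocks (P - q * s) 0 0 1 * fromBlocks 1 0 s 1) := by
        rw [fromBlocks_multiply, fromBlocks_multiply, hB]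
        simp
      have hdet2 : (P - q * s).det = 1 := by
        have h1 := hdet
        rw [hdec, det_mul, det_mul, EM_det (EM_upper q), EM_det (EM_lower s),
          det_fromBlocks_zero₂₁, det_one, mul_one, mul_one, one_mul] at h1
        exact h1
      rw [hdec]
      refine mul_mem (EM_upper _) (mul_mem (EM_blk _ (ih _ hdet2 ?_)) (EM_lower _))
      intro i j
      have h1 : (P - q * s - (1 : Matrix (Fin n) (Fin n) S)) i j = (B - 1) (Sum.inl i) (Sum.inl j)
          - B (Sum.inl i) (Sum.inr 0) * B (Sum.inr 0) (Sum.inl j) := by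
        have h2 : (q * s) i j = B (Sum.inl i) (Sum.inr 0) * B (Sum.inr 0) (Sum.inl j) := by
          rw [Matrix.mul_apply]
          simp [q, s, toBlocks₁₂, toBlocks₂₁]
        rw [Matrix.sub_apply, Matrix.sub_apply, h2, Matrix.sub_apply]
        have h3 : (1 : Matrix (Fin n ⊕ Fin 1) (Fin n ⊕ Fin 1) S) (Sum.inl i) (Sum.inl j)
            = (1 : Matrix (Fin n) (Fin n) S) i j := by
          simp [Matrix.one_apply]
        rw [h3]
        have h4 : P i j = B (Sum.inl i) (Sum.inl j) := rfl
        rw [h4]; ring
      rw [h1]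
      have hb1 : N (B (Sum.inl i) (Sum.inr 0)) ≤ 10 * δ' := by
        have := hE2 (Sum.inl i) (Sum.inr 0)
        rwa [Matrix.sub_apply, Matrix.one_apply_ne (by simp), sub_zero] at this
      have hb2 : N (B (Sum.inr 0) (Sum.inl j)) ≤ 10 * δ' := by
        have := hE2 (Sum.inr 0) (Sum.inl j)
        rwa [Matrix.sub_apply, Matrix.one_apply_ne (by simp), sub_zero] at this
      have hb3 := h.mul_le (by linarith) hb1 hb2
      have hb4 := h.sub ((B - 1) (Sum.inl i) (Sum.inl j))
        (B (Sum.inl i) (Sum.inr 0) * B (Sum.inr 0) (Sum.inl j))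
      have hb5 := hE2 (Sum.inl i) (Sum.inl j)
      nlinarith
  · rintro J K _ _ _ _ e ⟨δ, hδ, ih⟩
    refine ⟨δ, hδ, fun A hA hAn => ?_⟩
    have h1 : (reindex e.symm e.symm A).det = 1 := by rw [det_reindex_self]; exact hA
    have h2 := EM_reindex e (ih _ h1 (fun i j => by
      have h3 : (reindex e.symm e.symm A - 1) i j = (A - 1) (e i) (e j) := by
        simp [Matrix.one_apply, e.injective.eq_iff]
      rw [h3]; exact hAn _ _))
    convert h2 using 1
    ext i j; simp

end SNorm

end norm

end Pool.Agent.FTA
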