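import Pool.Agent.SSE.E4
import Pool.Agent.FTA.Elem

/-!
# FTO project (MP_59dda0_an), approximation part: tracks of real polynomial matrices

`track_real`: every real polynomial matrix `h` with the congruences `Lo` is approximated by an
integral product of low transvections with an error `K r ^ M` (the proof is the one of
`exists_track` in the module E5 of the project SSE, which only uses the real matrix).
-/

set_option autoImplicit false

namespace Pool.Agent.FTA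

open Polynomial Matrix
open Pool.Agent.SSE

variable {r : ℝ}

theorem track_real (hr : 0 < r) (hr1 : r < 1) (J : Type) [Fintype J] [DecidableEq J] :
    ∃ K : ℝ, 1 ≤ K ∧ ∃ M₀ : ℕ, 0 < M₀ ∧ ∀ M ≥ M₀, ∀ p q : J, q ≠ p →
      ∀ G : SpecialLinearGroup J ℝ[X], Lo p M (G : Matrix J J ℝ[X]) →
      ∃ f ∈ FLow p M, nu r (toRG f * G⁻¹) ≤ K * r ^ M := by
  obtain ⟨K, hK1, M₁, hround⟩ := rounding hr hr1 J
  have hK0 : 0 < K := lt_of_lt_of_le one_pos hK1
  obtain ⟨M₂, hM₂⟩ := exists_pow_lt_of_lt_one (show (0 : ℝ) < 1 / K by positivity) hr1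
  refine ⟨K, hK1, max (max M₁ M₂) 1, by positivity, ?_⟩
  intro M hM p q hqp G hg
  have hMM₁ : M₁ ≤ M := le_trans (le_trans (le_max_left _ _) (le_max_left _ _)) hM
  have hMM₂ : M₂ ≤ M := le_trans (le_trans (le_max_right _ _) (le_max_left _ _)) hM
  have hM0 : 0 < M := lt_of_lt_of_le Nat.one_pos (le_trans (le_max_right _ _) hM)
  have hrM : 0 < r ^ M := pow_pos hr M
  have hδ0 : 0 < K * r ^ M := mul_pos hK0 hrM
  have hδ1 : K * r ^ M ≤ 1 := by
    have h1 : r ^ M ≤ r ^ M₂ := pow_le_pow_of_le_one hr.le hr1.le hMM₂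
    have h2 : r ^ M < 1 / K := lt_of_le_of_lt h1 hM₂
    rw [lt_div_iff₀ hK0] at h2
    nlinarith
  obtain ⟨κ, hκ, hclose⟩ := nu_sclG_close hr.le G (show 0 < K * r ^ M / 3 by positivity)
  obtain ⟨n₀, hn₀⟩ := exists_nat_gt (1 / κ)
  set Q : ℕ := n₀ + 1 with hQdef
  have hQR : (0 : ℝ) < Q := by exact_mod_cast Nat.succ_pos n₀
  have hQκ : 1 / (Q : ℝ) ≤ κ := by
    have h2 : 1 / κ < Q := lt_of_lt_of_le hn₀ (by exact_mod_cast Nat.le_succ n₀)
    rw [div_lt_iff₀ hκ] at h2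
    rw [div_le_iff₀ hQR]
    nlinarith
  have key : ∀ n ≤ Q, ∃ f ∈ FLow p M, nu r (toRG f * (sclG ((n : ℝ) / Q) G)⁻¹) ≤ K * r ^ M := by
    intro n
    induction n with
    | zero =>
      intro _
      refine ⟨1, Subgroup.one_mem _, ?_⟩
      have : sclG (((0 : ℕ) : ℝ) / Q) G = 1 := by
        rw [Nat.cast_zero, zero_div]
        exact sclG_zero hM0 hg
      rw [this, map_one, inv_one, mul_one, nu_one]
      exact hδ0.le
    | succ n ih =>
      intro hn
      obtain ⟨f, hmem, h1⟩ := ih (by omega)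
      set s : ℝ := (n : ℝ) / Q with hs
      set s' : ℝ := ((n + 1 : ℕ) : ℝ) / Q with hs'
      set h : SpecialLinearGroup J ℝ[X] := toRG f * (sclG s' G)⁻¹ with hh
      have hdecomp : h = (toRG f * (sclG s G)⁻¹) * (sclG s G * (sclG s' G)⁻¹) := by
        rw [hh]; group
      have hnQ : (n : ℝ) ≤ Q := by exact_mod_cast (by omega : n ≤ Q)
      have hn1Q : ((n + 1 : ℕ) : ℝ) ≤ Q := by exact_mod_cast hn
      have hs0 : 0 ≤ s := by positivity
      have hs1 : s ≤ 1 := by rw [hs, div_le_one hQR]; exact hnQ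
      have hs'0 : 0 ≤ s' := by positivity
      have hs'1 : s' ≤ 1 := by rw [hs', div_le_one hQR]; exact hn1Q
      have hdiff : |s - s'| ≤ κ := by
        have : s - s' = -(1 / (Q : ℝ)) := by
          rw [hs, hs']; push_cast; field_simp; ring
        rw [this, abs_neg, abs_of_pos (by positivity)]
        exact hQκ
      have h2 := hclose s s' hs0 hs1 hs'0 hs'1 hdiff
      have h3 := nu_mul_le hr.le (toRG f * (sclG s G)⁻¹) (sclG s G * (sclG s' G)⁻¹)
      have hn1 := nu_nonneg hr.le (toRG f * (sclG s G)⁻¹)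
      have hn2 := nu_nonneg hr.le (sclG s G * (sclG s' G)⁻¹)
      have hnuh : nu r h ≤ 2 * (K * r ^ M) := by
        rw [hdecomp]
        refine le_trans h3 ?_
        have h4 : nu r (toRG f * (sclG s G)⁻¹) * nu r (sclG s G * (sclG s' G)⁻¹)
            ≤ 1 * (K * r ^ M / 3) :=
          mul_le_mul (le_trans h1 hδ1) h2 hn2 zero_le_one
        linarith
      have hLo : Lo p M (h : Matrix J J ℝ[X]) := Lo_mul (FLow_Lo hmem) (Lo_inv (Lo_scl hg s'))
      obtain ⟨w, hwF, -, hwn⟩ := hround M hMM₁ p q hqp h hLo hnuh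
      refine ⟨w * f, Subgroup.mul_mem _ hwF hmem, ?_⟩
      rw [map_mul, mul_assoc]
      exact hwn
  obtain ⟨f, hmem, hnear⟩ := key Q le_rfl
  refine ⟨f, hmem, ?_⟩
  rw [div_self hQR.ne', sclG_one] at hnear
  exact hnear

/-- the elements of `FLow` on `J ⊕ Fin 1` are blocks -/
theorem FLow_block {J : Type} [Fintype J] [DecidableEq J] {M : ℕ}
    {f : SpecialLinearGroup (J ⊕ Fin 1) ℤ[X]} (hf : f ∈ FLow (Sum.inr 0 : J ⊕ Fin 1) M) :
    ∃ A ∈ EM J ℤ[X], (f : Matrix (J ⊕ Fin 1) (J ⊕ Fin 1) ℤ[X]) = fromBlocks A 0 0 1 ∧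
      ∀ i j, X ^ M ∣ (A - 1) i j := by
  unfold FLow at hf
  induction hf using Subgroup.closure_induction with
  | mem x hx =>
    obtain ⟨i, j, h, d, c, hi, hj, hd, _, rfl⟩ := hx
    rcases i with i | i
    swap
    · exact absurd (by rw [Subsingleton.elim i 0]) hi
    rcases j with j | j
    swap
    · exact absurd (by rw [Subsingleton.elim j 0]) hj
    have hij : i ≠ j := fun h' => h (by rw [h'])
    refine ⟨transvection i j (monomial d c), tr_mem hij _, ?_, ?_⟩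
    · change transvection (Sum.inl i) (Sum.inl j) (monomial d c) = _
      ext a b : 2
      rcases a with a | a <;> rcases b with b | b <;>
      simp [transvection, Matrix.one_apply, Matrix.single_apply]
    · intro a b
      rw [transvection, add_sub_cancel_left, Matrix.single_apply]
      split_ifs
      · rw [X_pow_dvd_iff]
        intro e he
        rw [coeff_monomial, if_neg (by omega)]
      · exact dvd_zero _
  | one =>
    refine ⟨1, one_mem _, ?_, ?_⟩
    · rw [fromBlocks_one]; rfl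
    · intro i j; rw [sub_self]; exact dvd_zero _
  | mul x y _ _ hx hy =>
    obtain ⟨A, hA, h1, h2⟩ := hx
    obtain ⟨B, hB, h3, h4⟩ := hy
    refine ⟨A * B, mul_mem hA hB, ?_, ?_⟩
    · have : ((x * y : SpecialLinearGroup (J ⊕ Fin 1) ℤ[X]) : Matrix (J ⊕ Fin 1) (J ⊕ Fin 1) ℤ[X])
          = (x : Matrix (J ⊕ Fin 1) (J ⊕ Fin 1) ℤ[X]) * (y : Matrix (J ⊕ Fin 1) (J ⊕ Fin 1) ℤ[X]) := rfl
      rw [this, h1, h3, fromBlocks_multiply]
      simp
    · intro i j
      have h5 : A * B - 1 = (A - 1) * B + (B - 1) := by rw [Matrix.sub_mul, Matrix.one_mul]; abel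
      rw [h5, Matrix.add_apply, Matrix.mul_apply]
      exact dvd_add (Finset.dvd_sum fun l _ => dvd_mul_of_dvd_left (h2 i l) _) (h4 i j)
  | inv x _ hx =>
    obtain ⟨A, hA, h1, h2⟩ := hx
    obtain ⟨B, hB, h3, h4⟩ := EM_inv hA
    refine ⟨B, hB, ?_, ?_⟩
    · have h5 : (x : Matrix (J ⊕ Fin 1) (J ⊕ Fin 1) ℤ[X]) *
          ((x⁻¹ : SpecialLinearGroup (J ⊕ Fin 1) ℤ[X]) : Matrix (J ⊕ Fin 1) (J ⊕ Fin 1) ℤ[X]) = 1 :=
        congrArg (fun x : SpecialLinearGroup (J ⊕ Fin 1) ℤ[X] =>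
          (x : Matrix (J ⊕ Fin 1) (J ⊕ Fin 1) ℤ[X])) (mul_inv_cancel x)
      have h6 : (fromBlocks B 0 0 1 : Matrix (J ⊕ Fin 1) (J ⊕ Fin 1) ℤ[X]) *
          (x : Matrix (J ⊕ Fin 1) (J ⊕ Fin 1) ℤ[X]) = 1 := by
        rw [h1, fromBlocks_multiply]
        simp [h4]
      calc _ = ((fromBlocks B 0 0 1 : Matrix (J ⊕ Fin 1) (J ⊕ Fin 1) ℤ[X]) *
          (x : Matrix (J ⊕ Fin 1) (J ⊕ Fin 1) ℤ[X])) *
          ((x⁻¹ : SpecialLinearGroup (J ⊕ Fin 1) ℤ[X]) : Matrix (J ⊕ Fin 1) (J ⊕ Fin 1) ℤ[X]) := by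
            rw [h6, Matrix.one_mul]
        _ = fromBlocks B 0 0 1 := by rw [Matrix.mul_assoc, h5, Matrix.mul_one]
    · intro i j
      have h5 : B - 1 = -(B * (A - 1)) := by rw [Matrix.mul_sub, h4, Matrix.mul_one]; abel
      rw [h5, Matrix.neg_apply, Matrix.mul_apply]
      exact (dvd_neg).2 (Finset.dvd_sum fun l _ => dvd_mul_of_dvd_right (h2 l j) _)

end Pool.Agent.FTA
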