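import Pool.Agent.FTA.Sr
import Pool.Agent.FTA.TrackR

/-!
# FTO project (MP_59dda0_an): the approximation theorem

`approx_nS`: every matrix of determinant one over `ℤ⟦X⟧` whose entries converge at `r`, `0 < r < 1`,
is approximated, `X`-adically and in the norm `∑ |f_d| r^d`, by products of transvections over `ℤ[X]`.
-/

set_option autoImplicit false

namespace Pool.Agent.FTA

open Polynomial Matrix
open Pool.Agent.SSE Pool.Agent.SSE.PF

section
variable {J : Type} [Fintype J] [DecidableEq J] {r : ℝ}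

/-- `ℤ⟦X⟧ → ℝ⟦X⟧` -/
noncomputable def zR : PowerSeries ℤ →+* PowerSeries ℝ := PowerSeries.map (Int.castRingHom ℝ)

theorem coeff_zR (f : PowerSeries ℤ) (d : ℕ) :
    PowerSeries.coeff d (zR f) = ((PowerSeries.coeff d f : ℤ) : ℝ) := by
  unfold zR; rw [PowerSeries.coeff_map]; rfl

theorem zR_inj : Function.Injective zR := by
  intro f g h
  ext d
  have := congrArg (PowerSeries.coeff d) h
  rw [coeff_zR, coeff_zR] at this
  exact_mod_cast this

theorem zR_coe (f : ℤ[X]) : zR (f : PowerSeries ℤ) = ((toR f : ℝ[X]) : PowerSeries ℝ) := by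
  ext d
  rw [coeff_zR, Polynomial.coeff_coe, Polynomial.coeff_coe]
  simp [toR]

theorem nS_coe (p : ℝ[X]) : nS r (p : PowerSeries ℝ) = wn r p := by
  rw [nS_poly]; rfl

/-- `f' H⁻¹` near `1`, for the integral element `f'` found by the track -/
theorem near_integral (hr : 0 < r) (hr1 : r < 1) (J : Type) [Fintype J] [DecidableEq J]
    (hJ : Nonempty J) :
    ∃ K : ℝ, 1 ≤ K ∧ ∃ M₀ : ℕ, 0 < M₀ ∧ ∀ M ≥ M₀, ∀ H Hi : Matrix J J ℝ[X],
      H * Hi = 1 → H.det = 1 → (∀ i j, ∀ d < 2 * M, ((H - 1) i j).coeff d = 0) →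
      ∃ f ∈ EM J ℤ[X], (∀ i j, X ^ M ∣ (f - 1) i j) ∧
        ∀ i j, wn r ((f.map toR * Hi - 1) i j) ≤ K * r ^ M := by
  obtain ⟨K, hK, M₀, hM₀, htr⟩ := track_real hr hr1 (J ⊕ Fin 1)
  refine ⟨K, hK, M₀, hM₀, ?_⟩
  intro M hM H Hi hHi hdet hH
  obtain ⟨j0⟩ := hJ
  have hdeti : Hi.det = 1 := by
    have := congrArg Matrix.det hHi
    rwa [det_mul, hdet, one_mul, det_one] at this
  let h : SpecialLinearGroup (J ⊕ Fin 1) ℝ[X] := ⟨fromBlocks H 0 0 1, by
    rw [det_fromBlocks_zero₂₁, hdet, det_one, mul_one]⟩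
  let hi : SpecialLinearGroup (J ⊕ Fin 1) ℝ[X] := ⟨fromBlocks Hi 0 0 1, by
    rw [det_fromBlocks_zero₂₁, hdeti, det_one, mul_one]⟩
  have hhi : h * hi = 1 := by
    apply Subtype.ext
    change fromBlocks H 0 0 1 * fromBlocks Hi 0 0 1 = (1 : Matrix (J ⊕ Fin 1) (J ⊕ Fin 1) ℝ[X])
    rw [fromBlocks_multiply, hHi]
    simp
  have hinv : h⁻¹ = hi := inv_eq_of_mul_eq_one_right hhi
  have hval : (h : Matrix (J ⊕ Fin 1) (J ⊕ Fin 1) ℝ[X]) = fromBlocks H 0 0 1 := rfl
  have hLo : Lo (Sum.inr 0 : J ⊕ Fin 1) M (h : Matrix (J ⊕ Fin 1) (J ⊕ Fin 1) ℝ[X]) := by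
    rw [hval]
    refine ⟨?_, ?_, ?_, ?_⟩
    · intro i j d hd
      rcases i with i | i <;> rcases j with j | j
      · have h1 := hH i j d (by omega)
        rw [Matrix.sub_apply] at h1
        rw [fromBlocks_apply₁₁]
        have h2 : (1 : Matrix (J ⊕ Fin 1) (J ⊕ Fin 1) ℝ[X]) (Sum.inl i) (Sum.inl j)
            = (1 : Matrix J J ℝ[X]) i j := by simp [Matrix.one_apply]
        rw [h2]; exact h1
      · rw [fromBlocks_apply₁₂, Matrix.one_apply_ne (by simp)]; simp
      · rw [fromBlocks_apply₂₁, Matrix.one_apply_ne (by simp)]; simp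
      · rw [fromBlocks_apply₂₂]
        have h2 : (1 : Matrix (J ⊕ Fin 1) (J ⊕ Fin 1) ℝ[X]) (Sum.inr i) (Sum.inr j)
            = (1 : Matrix (Fin 1) (Fin 1) ℝ[X]) i j := by simp [Matrix.one_apply]
        rw [h2, sub_self, coeff_zero]
    · intro i d hd
      rcases i with i | i
      · have h1 := hH i i d hd
        rwa [Matrix.sub_apply, Matrix.one_apply_eq] at h1
      · rw [fromBlocks_apply₂₂, Matrix.one_apply_eq, sub_self, coeff_zero]
    · intro j
      rcases j with j | j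
      · rw [fromBlocks_apply₂₁, Matrix.one_apply_ne (by simp)]; rfl
      · rw [fromBlocks_apply₂₂]; simp [Matrix.one_apply]
    · intro i
      rcases i with i | i
      · rw [fromBlocks_apply₁₂, Matrix.one_apply_ne (by simp)]; rfl
      · rw [fromBlocks_apply₂₂]; simp [Matrix.one_apply]
  obtain ⟨f, hf, hfn⟩ := htr M hM (Sum.inr 0) (Sum.inl j0) (by simp) h hLo
  obtain ⟨A, hA, hfA, hAM⟩ := FLow_block hf
  refine ⟨A, hA, hAM, ?_⟩
  intro i j
  rw [hinv] at hfn
  refine le_trans ?_ hfn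
  have h3 : (((toRG f * hi : SpecialLinearGroup (J ⊕ Fin 1) ℝ[X]) :
      Matrix (J ⊕ Fin 1) (J ⊕ Fin 1) ℝ[X]) - 1) (Sum.inl i) (Sum.inl j)
      = (A.map toR * Hi - 1) i j := by
    have h4 : ((toRG f * hi : SpecialLinearGroup (J ⊕ Fin 1) ℝ[X]) :
      Matrix (J ⊕ Fin 1) (J ⊕ Fin 1) ℝ[X]) = (f : Matrix (J ⊕ Fin 1) (J ⊕ Fin 1) ℤ[X]).map toR
        * fromBlocks Hi 0 0 1 := rfl
    have h5 : (fromBlocks A 0 0 1 : Matrix (J ⊕ Fin 1) (J ⊕ Fin 1) ℤ[X]).map toR
        = fromBlocks (A.map toR) 0 0 1 := by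
      rw [fromBlocks_map]
      congr 1
      · ext; simp
      · ext; simp
      · exact Matrix.map_one _ (map_zero _) (map_one _)
    rw [Matrix.sub_apply, h4, hfA, h5, fromBlocks_multiply, fromBlocks_apply₁₁, Matrix.sub_apply]
    have h2 : (1 : Matrix (J ⊕ Fin 1) (J ⊕ Fin 1) ℝ[X]) (Sum.inl i) (Sum.inl j)
        = (1 : Matrix J J ℝ[X]) i j := by simp [Matrix.one_apply]
    rw [h2]
    simp
  rw [← h3]
  exact entry_le_mn hr.le _ _ _

theorem nr_pS (hr : 0 ≤ r) (p : ℝ[X]) : nr (pS r hr p) = wn r p := by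
  unfold nr; rw [pS_coe, nS_coe]

private theorem nr_sum_le (hr : 0 ≤ r) (f : J → Sr r hr) (K : ℝ) (hf : ∀ l, nr (f l) ≤ K) :
    nr (∑ l, f l) ≤ (Fintype.card J : ℝ) * K := by
  have hN := snorm_nr hr
  have : ∀ s : Finset J, nr (∑ l ∈ s, f l) ≤ ∑ l ∈ s, K := by
    intro s
    induction s using Finset.induction_on with
    | empty => rw [Finset.sum_empty, Finset.sum_empty, hN.zero]
    | insert a s ha ihs =>
      rw [Finset.sum_insert ha, Finset.sum_insert ha]
      exact (hN.add _ _).trans (add_le_add (hf a) ihs)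
  refine (this Finset.univ).trans (le_of_eq ?_)
  rw [Finset.sum_const, nsmul_eq_mul, Finset.card_univ]

/-- entries of a product -/
private theorem nr_mul_le (hr : 0 ≤ r) (A B : Matrix J J (Sr r hr)) {a b : ℝ} (ha : 0 ≤ a)
    (hA : ∀ i j, nr (A i j) ≤ a) (hB : ∀ i j, nr (B i j) ≤ b) (i j : J) :
    nr ((A * B) i j) ≤ (Fintype.card J : ℝ) * (a * b) := by
  rw [Matrix.mul_apply]
  exact nr_sum_le hr _ _ fun l => (snorm_nr hr).mul_le ha (hA i l) (hB l j)

omit [DecidableEq J] in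
private theorem exists_bd (hr : 0 ≤ r) (A : Matrix J J (Sr r hr)) :
    ∃ c : ℝ, 0 ≤ c ∧ ∀ i j, nr (A i j) ≤ c :=
  ⟨∑ i, ∑ j, nr (A i j), Finset.sum_nonneg fun i _ => Finset.sum_nonneg fun j _ => nS_nonneg hr _,
    fun _ _ => (Finset.single_le_sum (f := fun j => nr (A _ j)) (fun _ _ => nS_nonneg hr _)
      (Finset.mem_univ _)).trans (Finset.single_le_sum (f := fun i => ∑ j, nr (A i j))
      (fun _ _ => Finset.sum_nonneg fun _ _ => nS_nonneg hr _) (Finset.mem_univ _))⟩

/-- THE APPROXIMATION THEOREM: a matrix of determinant one over `ℤ⟦X⟧` whose entries converge at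
`r` is approximated, modulo `X ^ N` and in the norm, by products of transvections over `ℤ[X]` -/
theorem approx_nS (hr : 0 < r) (hr1 : r < 1) (U : Matrix J J (PowerSeries ℤ)) (hdet : U.det = 1)
    (hU : ∀ i j, HasN r (zR (U i j))) (N : ℕ) {ε : ℝ} (hε : 0 < ε) :
    ∃ F ∈ EM J ℤ[X], (∀ i j, ∀ d < N, (F i j).coeff d = PowerSeries.coeff d (U i j)) ∧
      ∀ i j, nS r (zR ((F i j : PowerSeries ℤ) - U i j)) ≤ ε := by
  rcases isEmpty_or_nonempty J with hJ | hJ
  · exact ⟨1, one_mem _, fun i => isEmptyElim i, fun i => isEmptyElim i⟩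
  have hr0 : (0 : ℝ) ≤ r := hr.le
  have hN := snorm_nr hr0
  -- the matrix over the ring of convergent series
  set US : Matrix J J (Sr r hr0) := fun i j => ⟨zR (U i j), hU i j⟩ with hUS
  have hUSmap : US.map (Sr r hr0).subtype = U.map zR := rfl
  have hUSdet : US.det = 1 := by
    apply Subtype.coe_injective
    have h1 : (Sr r hr0).subtype US.det = 1 := by
      rw [RingHom.map_det]
      change (US.map (Sr r hr0).subtype).det = 1
      rw [hUSmap]
      have : (U.map zR).det = zR U.det := by rw [RingHom.map_det]; rfl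
      rw [this, hdet, map_one]
    exact h1
  obtain ⟨cU, hcU0, hcU⟩ := exists_bd hr0 US
  obtain ⟨K, hK, M₀, hM₀, hint⟩ := near_integral hr hr1 J hJ
  set m : ℝ := (Fintype.card J : ℝ) with hm
  have hm0 : 0 ≤ m := Nat.cast_nonneg _
  set η : ℝ := ε / (m * cU + 1) with hη
  have hη0 : 0 < η := by positivity
  set a : ℝ := min (η / 4) (1 / (m + 1)) with ha
  have ha0 : 0 < a := lt_min (by positivity) (by positivity)
  have ha1 : a ≤ η / 4 := min_le_left _ _
  have ha2 : m * a ≤ 1 := by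
    have h1 : a ≤ 1 / (m + 1) := min_le_right _ _
    have h2 : m * a ≤ m * (1 / (m + 1)) := mul_le_mul_of_nonneg_left h1 hm0
    have h3 : m * (1 / (m + 1)) ≤ 1 := by
      rw [mul_one_div, div_le_one (by positivity)]; linarith
    linarith
  -- choice of `M`
  obtain ⟨M₁, hM₁⟩ := exists_pow_lt_of_lt_one (show (0 : ℝ) < a / K by positivity) hr1
  set M : ℕ := max (max M₀ M₁) N with hM
  have hMM₀ : M₀ ≤ M := le_trans (le_max_left _ _) (le_max_left _ _)
  have hMM₁ : M₁ ≤ M := le_trans (le_max_right _ _) (le_max_left _ _)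
  have hMN : N ≤ M := le_max_right _ _
  have hKM : K * r ^ M ≤ a := by
    have h1 : r ^ M ≤ r ^ M₁ := pow_le_pow_of_le_one hr.le hr1.le hMM₁
    have h2 : r ^ M < a / K := lt_of_le_of_lt h1 hM₁
    rw [lt_div_iff₀ (by linarith)] at h2
    linarith
  -- the approximation modulo `X ^ (2 M)`
  obtain ⟨G, hG, hGU⟩ := trunc_EM (EM_pow U hdet) (2 * M)
  obtain ⟨Gi, hGi, hGGi, hGiG⟩ := EM_inv hG
  set φ : ℤ[X] →+* Sr r hr0 := (pS r hr0).comp toR with hφ
  have hφc : ∀ f : ℤ[X], ((φ f : Sr r hr0) : PowerSeries ℝ) = zR (f : PowerSeries ℤ) := fun f => by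
    rw [zR_coe]; rfl
  set GS := G.map φ with hGS
  set GiS := Gi.map φ with hGiS
  have hGGS : GiS * GS = 1 := by
    rw [hGiS, hGS, ← Matrix.map_mul, hGiG, Matrix.map_one _ (map_zero _) (map_one _)]
  have hGGS' : GS * GiS = 1 := by
    rw [hGiS, hGS, ← Matrix.map_mul, hGGi, Matrix.map_one _ (map_zero _) (map_one _)]
  set VS : Matrix J J (Sr r hr0) := US * GiS with hVS
  have hVG : VS * GS = US := by rw [hVS, Matrix.mul_assoc, hGGS, Matrix.mul_one]
  have hGiSdet : GiS.det = 1 := by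
    have : GiS.det = φ Gi.det := by rw [RingHom.map_det]; rfl
    rw [this, EM_det hGi, map_one]
  have hVSdet : VS.det = 1 := by rw [hVS, det_mul, hUSdet, hGiSdet, one_mul]
  -- `VS` is `1` modulo `X ^ (2 M)`
  have hcoe_sum : ∀ (s : Finset J) (f : J → Sr r hr0), ((∑ l ∈ s, f l : Sr r hr0) : PowerSeries ℝ)
      = ∑ l ∈ s, (f l : PowerSeries ℝ) := fun s f => map_sum (Sr r hr0).subtype f s
  have hVS1 : ∀ i j, ∀ d < 2 * M, PowerSeries.coeff d (((VS - 1) i j : Sr r hr0) : PowerSeries ℝ) = 0 := by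
    intro i j d hd
    have h1 : VS - 1 = (US - GS) * GiS := by rw [Matrix.sub_mul, hGGS']
    rw [h1, Matrix.mul_apply, hcoe_sum, map_sum]
    refine Finset.sum_eq_zero fun l _ => ?_
    change PowerSeries.coeff d ((((US - GS) i l : Sr r hr0) : PowerSeries ℝ) *
      ((GiS l j : Sr r hr0) : PowerSeries ℝ)) = 0
    rw [PowerSeries.coeff_mul]
    refine Finset.sum_eq_zero fun p hp => ?_
    rw [Finset.HasAntidiagonal.mem_antidiagonal] at hp
    have h2 : (((US - GS) i l : Sr r hr0) : PowerSeries ℝ) = zR (U i l - (G i l : PowerSeries ℤ)) := by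
      rw [map_sub, ← hφc]; rfl
    have h3 := (PowerSeries.X_pow_dvd_iff.1 (hGU i l)) p.1 (by omega)
    rw [Matrix.sub_apply, Matrix.map_apply, map_sub] at h3
    have h4 : PowerSeries.coeff p.1 (U i l - (G i l : PowerSeries ℤ)) = 0 := by
      rw [map_sub]
      have h5 : PowerSeries.coeff p.1 (cP ℤ (G i l)) = PowerSeries.coeff p.1 ((G i l : ℤ[X]) : PowerSeries ℤ) := rfl
      rw [h5] at h3
      linarith
    rw [h2, coeff_zR, h4, Int.cast_zero, zero_mul]
  by_cases hM0 : M = 0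
  · exact absurd hM0 (by omega)
  have hVS0 : ∀ i j, PowerSeries.constantCoeff ((VS i j : Sr r hr0) : PowerSeries ℝ)
      = (1 : Matrix J J ℝ) i j := by
    intro i j
    have h1 := hVS1 i j 0 (by omega)
    have h2 : (((VS - 1) i j : Sr r hr0) : PowerSeries ℝ) = ((VS i j : Sr r hr0) : PowerSeries ℝ)
        - (((1 : Matrix J J (Sr r hr0)) i j : Sr r hr0) : PowerSeries ℝ) := rfl
    rw [h2, map_sub, PowerSeries.coeff_zero_eq_constantCoeff_apply,
      PowerSeries.coeff_zero_eq_constantCoeff_apply, sub_eq_zero] at h1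
    rw [h1]
    by_cases hij : i = j
    · subst hij
      rw [Matrix.one_apply_eq, Matrix.one_apply_eq]
      exact map_one (PowerSeries.constantCoeff : PowerSeries ℝ →+* ℝ)
    · rw [Matrix.one_apply_ne hij, Matrix.one_apply_ne hij]
      exact map_zero (PowerSeries.constantCoeff : PowerSeries ℝ →+* ℝ)
  have hVSEM := EM_Sr hr0 VS hVSdet hVS0
  set Vi := VS.adjugate with hVi
  have hViV : Vi * VS = 1 := by rw [hVi, adjugate_mul, hVSdet, one_smul]
  have hVVi : VS * Vi = 1 := by rw [hVi, mul_adjugate, hVSdet, one_smul]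
  obtain ⟨cV, hcV0, hcV⟩ := exists_bd hr0 Vi
  have hε2 : 0 < a / (m * cV + 1) := by positivity
  obtain ⟨H, hH, hHV⟩ := trunc_Sr hr0 hVSEM (2 * M) _ hε2
  obtain ⟨Hi, hHi, hHHi, hHiH⟩ := EM_inv hH
  set HS := H.map (pS r hr0) with hHS
  set HiS := Hi.map (pS r hr0) with hHiS
  have hHHS : HiS * HS = 1 := by
    rw [hHiS, hHS, ← Matrix.map_mul, hHiH, Matrix.map_one _ (map_zero _) (map_one _)]
  have hH1 : ∀ i j, ∀ d < 2 * M, ((H - 1) i j).coeff d = 0 := by
    intro i j d hd
    have h1 := (hHV i j).1 d hd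
    have h2 := hVS1 i j d hd
    have h3 : (((HS - VS) i j : Sr r hr0) : PowerSeries ℝ) + (((VS - 1) i j : Sr r hr0) : PowerSeries ℝ)
        = (((H - 1) i j : ℝ[X]) : PowerSeries ℝ) := by
      have h4 : (HS - VS) i j + (VS - 1) i j = pS r hr0 ((H - 1) i j) := by
        rw [Matrix.sub_apply, Matrix.sub_apply, Matrix.sub_apply, map_sub]
        have h5 : pS r hr0 ((1 : Matrix J J ℝ[X]) i j) = (1 : Matrix J J (Sr r hr0)) i j := by
          by_cases hij : i = j
          · subst hij; rw [Matrix.one_apply_eq, Matrix.one_apply_eq, map_one]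
          · rw [Matrix.one_apply_ne hij, Matrix.one_apply_ne hij, map_zero]
        rw [h5]
        change pS r hr0 (H i j) - VS i j + (VS i j - _) = _
        ring
      rw [← pS_coe hr0, ← h4]
      rfl
    rw [← Polynomial.coeff_coe, ← h3, map_add, h2, h1, add_zero]
  -- the integral element
  obtain ⟨f, hf, hfM, hfn⟩ := hint M hMM₀ H Hi hHHi (EM_det hH) hH1
  refine ⟨f * G, mul_mem hf hG, ?_, ?_⟩
  · intro i j d hd
    have h1 : (((f * G) i j : ℤ[X]) : PowerSeries ℤ) - U i j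
        = (∑ l, ((((f - 1) i l : ℤ[X]) : PowerSeries ℤ) * ((G l j : ℤ[X]) : PowerSeries ℤ)))
          + (G.map (cP ℤ) - U) i j := by
      have h2 : (f * G) i j = (∑ l, (f - 1) i l * G l j) + G i j := by
        rw [← Matrix.mul_apply, Matrix.sub_mul, Matrix.one_mul, Matrix.sub_apply]
        ring
      rw [h2, Matrix.sub_apply, Matrix.map_apply]
      change (cP ℤ) (∑ l, (f - 1) i l * G l j + G i j) - U i j = _
      rw [map_add, map_sum]
      simp only [map_mul]
      change (∑ l, (((f - 1) i l : ℤ[X]) : PowerSeries ℤ) * ((G l j : ℤ[X]) : PowerSeries ℤ)) +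
        (cP ℤ) (G i j) - U i j = _
      ring
    have h3 : (PowerSeries.X : PowerSeries ℤ) ^ M ∣ (((f * G) i j : ℤ[X]) : PowerSeries ℤ) - U i j := by
      rw [h1]
      refine dvd_add (Finset.dvd_sum fun l _ => dvd_mul_of_dvd_left ?_ _)
        ((pow_dvd_pow _ (by omega)).trans (hGU i j))
      have := map_dvd (cP ℤ) (hfM i l)
      rw [map_pow] at this
      have hX : cP ℤ (X : ℤ[X]) = (PowerSeries.X : PowerSeries ℤ) := Polynomial.coe_X
      rw [hX] at this
      exact this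
    have h4 := (PowerSeries.X_pow_dvd_iff.1 h3) d (lt_of_lt_of_le hd hMN)
    rw [map_sub, Polynomial.coeff_coe, sub_eq_zero] at h4
    exact h4
  · -- the norm
    set fS := f.map φ with hfS
    set E1 := fS * HiS - 1 with hE1
    set E2 := HS * Vi - 1 with hE2
    have hb1 : ∀ i j, nr (E1 i j) ≤ a := by
      intro i j
      have h1 : E1 = (f.map toR * Hi - 1).map (pS r hr0) := by
        rw [hE1, hfS, hHiS]
        have h2 : f.map φ = (f.map toR).map (pS r hr0) := by
          rw [Matrix.map_map]; rfl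
        rw [h2, ← Matrix.map_mul]
        ext i j : 2
        rw [Matrix.map_apply, Matrix.sub_apply, Matrix.sub_apply, map_sub, Matrix.map_apply]
        have h5 : pS r hr0 ((1 : Matrix J J ℝ[X]) i j) = (1 : Matrix J J (Sr r hr0)) i j := by
          by_cases hij : i = j
          · subst hij; rw [Matrix.one_apply_eq, Matrix.one_apply_eq, map_one]
          · rw [Matrix.one_apply_ne hij, Matrix.one_apply_ne hij, map_zero]
        rw [h5]
      rw [h1, Matrix.map_apply, nr_pS]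
      exact (hfn i j).trans hKM
    have hb2 : ∀ i j, nr (E2 i j) ≤ a := by
      intro i j
      have h1 : E2 = (HS - VS) * Vi := by rw [Matrix.sub_mul, hVVi]
      rw [h1]
      refine (nr_mul_le hr0 _ _ hε2.le (fun i j => (hHV i j).2) hcV i j).trans ?_
      have h2 : 0 < m * cV + 1 := by positivity
      have h3 : m * (a / (m * cV + 1) * cV) = a * ((m * cV) / (m * cV + 1)) := by field_simp
      rw [← hm, h3]
      have h4 : (m * cV) / (m * cV + 1) ≤ 1 := by rw [div_le_one h2]; linarith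
      nlinarith
    set E := E1 + E2 + E1 * E2 with hE
    have hb3 : ∀ i j, nr (E i j) ≤ η := by
      intro i j
      have h1 := nr_mul_le hr0 E1 E2 ha0.le hb1 hb2 i j
      have h2 := hN.add (E1 i j + E2 i j) ((E1 * E2) i j)
      have h3 := hN.add (E1 i j) (E2 i j)
      have h4 : m * (a * a) ≤ a := by nlinarith
      rw [← hm] at h1
      have h5 : nr (E i j) = nr (E1 i j + E2 i j + (E1 * E2) i j) := by
        rw [hE, Matrix.add_apply, Matrix.add_apply]
      rw [h5]
      linarith [hb1 i j, hb2 i j]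
    have hfin : fS * GS - US = E * US := by
      have h1 : (1 + E1) * (1 + E2) = fS * Vi := by
        rw [hE1, hE2, add_sub_cancel, add_sub_cancel, Matrix.mul_assoc, ← Matrix.mul_assoc HiS,
          hHHS, Matrix.one_mul]
      have h2 : E = fS * Vi - 1 := by
        rw [← h1, hE]
        noncomm_ring
      rw [h2, Matrix.sub_mul, Matrix.one_mul, Matrix.mul_assoc]
      congr 1
      rw [← hVG, ← Matrix.mul_assoc Vi, hViV, Matrix.one_mul]
    intro i j
    have h1 : zR ((((f * G) i j : ℤ[X]) : PowerSeries ℤ) - U i j)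
        = (((fS * GS - US) i j : Sr r hr0) : PowerSeries ℝ) := by
      rw [map_sub, ← hφc]
      have h2 : φ ((f * G) i j) = (fS * GS) i j := by
        rw [hfS, hGS, ← Matrix.map_mul, Matrix.map_apply]
      rw [h2]
      rfl
    rw [h1]
    change nr ((fS * GS - US) i j) ≤ ε
    rw [hfin]
    refine (nr_mul_le hr0 _ _ hη0.le hb3 hcU i j).trans ?_
    have h2 : 0 < m * cU + 1 := by positivity
    have h3 : m * (η * cU) = ε * ((m * cU) / (m * cU + 1)) := by rw [hη]; field_simp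
    rw [← hm, h3]
    have h4 : (m * cU) / (m * cU + 1) ≤ 1 := by rw [div_le_one h2]; linarith
    nlinarith

/-- the approximation theorem with explicit sums -/
theorem approx (hr : 0 < r) (hr1 : r < 1) (U : Matrix J J (PowerSeries ℤ)) (hdet : U.det = 1)
    (hU : ∀ i j, Summable fun d => |((PowerSeries.coeff d (U i j) : ℤ) : ℝ)| * r ^ d) (N : ℕ)
    {ε : ℝ} (hε : 0 < ε) :
    ∃ F : Matrix J J ℤ[X], F ∈ EM J ℤ[X] ∧ F.det = 1 ∧
      (∀ i j, ∀ d < N, (F i j).coeff d = PowerSeries.coeff d (U i j)) ∧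
      ∀ i j, (Summable fun d => |((F i j).coeff d : ℝ) - ((PowerSeries.coeff d (U i j) : ℤ) : ℝ)| * r ^ d) ∧
        ∑' d, |((F i j).coeff d : ℝ) - ((PowerSeries.coeff d (U i j) : ℤ) : ℝ)| * r ^ d ≤ ε := by
  have hU' : ∀ i j, HasN r (zR (U i j)) := by
    intro i j
    unfold HasN
    simpa only [coeff_zR, Real.norm_eq_abs] using hU i j
  obtain ⟨F, hF, h1, h2⟩ := approx_nS hr hr1 U hdet hU' N hε
  refine ⟨F, hF, EM_det hF, h1, ?_⟩
  intro i j
  have h3 : ∀ d, ‖PowerSeries.coeff d (zR ((F i j : PowerSeries ℤ) - U i j))‖ * r ^ d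
      = |((F i j).coeff d : ℝ) - ((PowerSeries.coeff d (U i j) : ℤ) : ℝ)| * r ^ d := by
    intro d
    rw [coeff_zR, map_sub, Polynomial.coeff_coe, Real.norm_eq_abs]
    push_cast
    rfl
  have h4 := h2 i j
  have h5 : HasN r (zR ((F i j : PowerSeries ℤ) - U i j)) := by
    rw [map_sub, zR_coe]
    exact HasN.sub hr.le (hasN_poly r _) (hU' i j)
  unfold HasN at h5
  unfold nS at h4
  simp only [h3] at h4 h5
  exact ⟨h5, h4⟩

end

end Pool.Agent.FTA
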