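import Pool.Agent.FTA.Adic
import Pool.Agent.SSE.PF5

/-!
# FTO project (MP_59dda0_an), approximation part: real power series with a finite weighted norm

`Sr r`: the subring of the real power series with `∑ |f_d| r^d < ∞`.
`EM_Sr`: a matrix of determinant one over `Sr r` that is `1` modulo `X` is a product of transvections
(the path `U(s X)`, `0 ≤ s ≤ 1`, and Gauss elimination near the identity).
`trunc_Sr`: approximation by products of transvections over real polynomials.
-/

set_option autoImplicit false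

namespace Pool.Agent.FTA

open Polynomial Matrix
open Pool.Agent.SSE.PF

section
variable {J : Type} [Fintype J] [DecidableEq J] {r : ℝ}

/-- the ring of the real power series with finite norm -/
noncomputable def Sr (r : ℝ) (hr : 0 ≤ r) : Subring (PowerSeries ℝ) where
  carrier := {f | HasN r f}
  mul_mem' := fun ha hb => HasN.mul hr ha hb
  one_mem' := hasN_one r
  add_mem' := fun ha hb => HasN.add hr ha hb
  zero_mem' := hasN_zero r
  neg_mem' := fun ha => HasN.neg ha

theorem Sr_has {hr : 0 ≤ r} (f : Sr r hr) : HasN r (f : PowerSeries ℝ) := f.2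

/-- the norm on `Sr r` -/
noncomputable def nr {r : ℝ} {hr : 0 ≤ r} (f : Sr r hr) : ℝ := nS r (f : PowerSeries ℝ)

theorem nS_zero (r : ℝ) : nS r (0 : PowerSeries ℝ) = 0 := by
  unfold nS; simp

theorem snorm_nr (hr : 0 ≤ r) : SNorm (Sr r hr) nr where
  nonneg := fun x => nS_nonneg hr _
  zero := by unfold nr; exact nS_zero r
  one := by unfold nr; exact (nS_one r).le
  neg := fun x => by
    unfold nr; exact nS_neg _
  add := fun x y => nS_add_le hr (Sr_has x) (Sr_has y)
  mul := fun x y => nS_mul_le hr (Sr_has x) (Sr_has y)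
  unit := fun x hx => by
    set c : PowerSeries ℝ := -(x : PowerSeries ℝ) with hc
    have hcN : HasN r c := (Sr_has x).neg
    have hc1 : nS r c ≤ 1 / 2 := by rw [hc, nS_neg]; exact hx
    have hcoef : |PowerSeries.coeff 0 c| ≤ 1 / 2 := by
      have := hcN.le hr 0
      rw [pow_zero, mul_one, Real.norm_eq_abs] at this
      exact this.trans hc1
    have h0 : PowerSeries.constantCoeff (1 - c) ≠ 0 := by
      rw [map_sub, map_one, ← PowerSeries.coeff_zero_eq_constantCoeff_apply]
      intro h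
      have : PowerSeries.coeff 0 c = 1 := by linarith
      rw [this] at hcoef
      norm_num at hcoef
    have hinv := PowerSeries.mul_inv_cancel _ h0
    have heq : (1 - c)⁻¹ = 1 + c * (1 - c)⁻¹ := by linear_combination hinv
    obtain ⟨h1, h2⟩ := hasN_of_eq hr (hasN_one r) hcN (by linarith) heq
    refine ⟨⟨(1 - c)⁻¹, h1⟩, ?_, ?_⟩
    · apply Subtype.ext
      have h3 : ((1 : Sr r hr) + x : Sr r hr) = (⟨1 - c, HasN.sub hr (hasN_one r) hcN⟩ : Sr r hr) := by
        apply Subtype.ext
        change (1 : PowerSeries ℝ) + (x : PowerSeries ℝ) = 1 - c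
        rw [hc]; ring
      rw [h3]
      exact hinv
    · change nS r (1 - c)⁻¹ ≤ 2
      rw [nS_one] at h2
      refine h2.trans ?_
      rw [div_le_iff₀ (by linarith)]
      linarith

/-- the scaling `f(X) ↦ f(sX)` -/
noncomputable def sc (r : ℝ) (hr : 0 ≤ r) (s : ℝ) (h0 : 0 ≤ s) (h1 : s ≤ 1) : Sr r hr →+* Sr r hr where
  toFun := fun f => ⟨PowerSeries.rescale s (f : PowerSeries ℝ), by
    refine Summable.of_nonneg_of_le (fun n => mul_nonneg (norm_nonneg _) (pow_nonneg hr n))
      (fun n => ?_) (Sr_has f)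
    rw [PowerSeries.coeff_rescale, norm_mul, Real.norm_eq_abs, abs_of_nonneg (pow_nonneg h0 n)]
    refine mul_le_mul_of_nonneg_right ?_ (pow_nonneg hr n)
    exact mul_le_of_le_one_left (norm_nonneg _) (pow_le_one₀ h0 h1)⟩
  map_one' := Subtype.ext (map_one _)
  map_mul' := fun f g => Subtype.ext (map_mul _ _ _)
  map_zero' := Subtype.ext (map_zero _)
  map_add' := fun f g => Subtype.ext (map_add _ _ _)

theorem sc_coe (hr : 0 ≤ r) {s : ℝ} (h0 : 0 ≤ s) (h1 : s ≤ 1) (f : Sr r hr) :
    ((sc r hr s h0 h1 f : Sr r hr) : PowerSeries ℝ) = PowerSeries.rescale s (f : PowerSeries ℝ) := rfl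

theorem nr_sc_le (hr : 0 ≤ r) {s : ℝ} (h0 : 0 ≤ s) (h1 : s ≤ 1) (f : Sr r hr) :
    nr (sc r hr s h0 h1 f) ≤ nr f := by
  unfold nr
  rw [sc_coe]
  refine Summable.tsum_le_tsum (fun n => ?_) (Sr_has (sc r hr s h0 h1 f)) (Sr_has f)
  rw [PowerSeries.coeff_rescale, norm_mul, Real.norm_eq_abs, abs_of_nonneg (pow_nonneg h0 n)]
  refine mul_le_mul_of_nonneg_right ?_ (pow_nonneg hr n)
  exact mul_le_of_le_one_left (norm_nonneg _) (pow_le_one₀ h0 h1)

/-- the tail of the norm becomes small -/
theorem exists_tail (hr : 0 ≤ r) (f : Sr r hr) {ε : ℝ} (hε : 0 < ε) :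
    ∃ D₀ : ℕ, ∀ D ≥ D₀, ∑' n, ‖PowerSeries.coeff (n + D) (f : PowerSeries ℝ)‖ * r ^ (n + D) ≤ ε := by
  have h := (Sr_has f)
  have h1 := tendsto_sum_nat_add (fun n => ‖PowerSeries.coeff n (f : PowerSeries ℝ)‖ * r ^ n)
  have h2 := (h1.eventually (gt_mem_nhds hε))
  obtain ⟨D₀, hD₀⟩ := Filter.eventually_atTop.1 h2
  exact ⟨D₀, fun D hD => (hD₀ D hD).le⟩

private theorem pow_sub_pow_le {s s' : ℝ} (h0 : 0 ≤ s) (h1 : s ≤ 1) (h0' : 0 ≤ s') (h1' : s' ≤ 1)
    (n : ℕ) : |s ^ n - s' ^ n| ≤ n * |s - s'| := by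
  induction n with
  | zero => simp
  | succ n ih =>
    have h2 : s ^ (n + 1) - s' ^ (n + 1) = s * (s ^ n - s' ^ n) + (s - s') * s' ^ n := by ring
    rw [h2]
    refine (abs_add_le _ _).trans ?_
    rw [abs_mul, abs_mul, abs_of_nonneg h0, abs_of_nonneg (pow_nonneg h0' n)]
    have h3 : s * |s ^ n - s' ^ n| ≤ 1 * (n * |s - s'|) :=
      mul_le_mul h1 ih (abs_nonneg _) zero_le_one
    have h4 : |s - s'| * s' ^ n ≤ |s - s'| * 1 :=
      mul_le_mul_of_nonneg_left (pow_le_one₀ h0' h1') (abs_nonneg _)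
    push_cast
    linarith

/-- scaling is uniformly continuous -/
theorem sc_close (hr : 0 ≤ r) (f : Sr r hr) {ε : ℝ} (hε : 0 < ε) :
    ∃ κ : ℝ, 0 < κ ∧ ∀ (s s' : ℝ) (h0 : 0 ≤ s) (h1 : s ≤ 1) (h0' : 0 ≤ s') (h1' : s' ≤ 1),
      |s - s'| ≤ κ → nr (sc r hr s h0 h1 f - sc r hr s' h0' h1' f) ≤ ε := by
  obtain ⟨D, hD⟩ := exists_tail hr f (half_pos hε)
  have hN : 0 ≤ nr f := nS_nonneg hr _
  have hpos : 0 < 2 * ((D : ℝ) * nr f + 1) := by positivity
  refine ⟨ε / (2 * ((D : ℝ) * nr f + 1)), by positivity, ?_⟩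
  intro s s' h0 h1 h0' h1' hss
  have hcoef : ∀ n, ‖PowerSeries.coeff n ((sc r hr s h0 h1 f - sc r hr s' h0' h1' f : Sr r hr) :
      PowerSeries ℝ)‖ * r ^ n = |s ^ n - s' ^ n| * (‖PowerSeries.coeff n (f : PowerSeries ℝ)‖ * r ^ n) := by
    intro n
    have h2 : ((sc r hr s h0 h1 f - sc r hr s' h0' h1' f : Sr r hr) : PowerSeries ℝ)
        = PowerSeries.rescale s (f : PowerSeries ℝ) - PowerSeries.rescale s' (f : PowerSeries ℝ) := rfl
    rw [h2, map_sub, PowerSeries.coeff_rescale, PowerSeries.coeff_rescale, ← sub_mul, norm_mul,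
      Real.norm_eq_abs (s ^ n - s' ^ n)]
    ring
  have hsum := Sr_has (sc r hr s h0 h1 f - sc r hr s' h0' h1' f)
  unfold nr nS
  rw [← Summable.sum_add_tsum_nat_add D hsum]
  have hA : ∑ n ∈ Finset.range D, ‖PowerSeries.coeff n ((sc r hr s h0 h1 f - sc r hr s' h0' h1' f :
      Sr r hr) : PowerSeries ℝ)‖ * r ^ n ≤ (D : ℝ) * |s - s'| * nr f := by
    have h3 : ∑ n ∈ Finset.range D, ‖PowerSeries.coeff n (f : PowerSeries ℝ)‖ * r ^ n ≤ nr f :=
      (Sr_has f).sum_le_tsum _ fun n _ => mul_nonneg (norm_nonneg _) (pow_nonneg hr n)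
    calc _ ≤ ∑ n ∈ Finset.range D, (D : ℝ) * |s - s'| *
          (‖PowerSeries.coeff n (f : PowerSeries ℝ)‖ * r ^ n) := by
          refine Finset.sum_le_sum fun n hn => ?_
          rw [hcoef]
          refine mul_le_mul_of_nonneg_right ?_ (mul_nonneg (norm_nonneg _) (pow_nonneg hr n))
          refine (pow_sub_pow_le h0 h1 h0' h1' n).trans ?_
          refine mul_le_mul_of_nonneg_right ?_ (abs_nonneg _)
          exact_mod_cast (Finset.mem_range.1 hn).le
      _ = (D : ℝ) * |s - s'| * ∑ n ∈ Finset.range D, ‖PowerSeries.coeff n (f : PowerSeries ℝ)‖ * r ^ n := by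
          rw [Finset.mul_sum]
      _ ≤ _ := mul_le_mul_of_nonneg_left h3 (by positivity)
  have hB : ∑' n, ‖PowerSeries.coeff (n + D) ((sc r hr s h0 h1 f - sc r hr s' h0' h1' f :
      Sr r hr) : PowerSeries ℝ)‖ * r ^ (n + D) ≤ ε / 2 := by
    refine le_trans (Summable.tsum_le_tsum (fun n => ?_) ((summable_nat_add_iff D).2 hsum)
      ((summable_nat_add_iff D).2 (Sr_has f))) (hD D le_rfl)
    rw [hcoef]
    refine mul_le_of_le_one_left (mul_nonneg (norm_nonneg _) (pow_nonneg hr _)) ?_
    rw [abs_le]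
    have := pow_le_one₀ (n := n + D) h0 h1
    have := pow_le_one₀ (n := n + D) h0' h1'
    have := pow_nonneg h0 (n + D)
    have := pow_nonneg h0' (n + D)
    constructor <;> linarith
  have hC : (D : ℝ) * |s - s'| * nr f ≤ ε / 2 := by
    have h4 : (D : ℝ) * nr f * |s - s'| ≤ ((D : ℝ) * nr f + 1) * (ε / (2 * ((D : ℝ) * nr f + 1))) :=
      mul_le_mul (by linarith) hss (abs_nonneg _) (by positivity)
    have h5 : ((D : ℝ) * nr f + 1) * (ε / (2 * ((D : ℝ) * nr f + 1))) = ε / 2 := by
      field_simp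
    linarith
  linarith

omit [DecidableEq J] in
/-- a common modulus of continuity -/
private theorem exists_kappa {P : J → J → ℝ → Prop} (hmono : ∀ i j x y, x ≤ y → P i j y → P i j x)
    (h : ∀ i j, ∃ κ : ℝ, 0 < κ ∧ P i j κ) : ∃ κ : ℝ, 0 < κ ∧ ∀ i j, P i j κ := by
  choose κ h1 h2 using h
  rcases isEmpty_or_nonempty J with hJ | hJ
  · exact ⟨1, one_pos, fun i => isEmptyElim i⟩
  · obtain ⟨p, -, hp⟩ := Finset.exists_min_image (Finset.univ : Finset (J × J))
      (fun p => κ p.1 p.2) ⟨(Classical.arbitrary J, Classical.arbitrary J), Finset.mem_univ _⟩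
    exact ⟨κ p.1 p.2, h1 _ _, fun i j => hmono i j _ _ (hp (i, j) (Finset.mem_univ _)) (h2 i j)⟩

/-- a matrix of determinant one over `Sr r` that is `1` modulo `X` is a product of transvections -/
theorem EM_Sr (hr : 0 ≤ r) (V : Matrix J J (Sr r hr)) (hV : V.det = 1)
    (hV0 : ∀ i j, PowerSeries.constantCoeff ((V i j : Sr r hr) : PowerSeries ℝ)
      = (1 : Matrix J J ℝ) i j) : V ∈ EM J (Sr r hr) := by
  obtain ⟨δ, hδ, hnear⟩ := (snorm_nr hr).near J
  set B := V.adjugate with hB
  have hVB : V * B = 1 := by rw [hB, mul_adjugate, hV, one_smul]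
  have hBV : B * V = 1 := by rw [hB, adjugate_mul, hV, one_smul]
  set c : ℝ := ∑ i, ∑ j, nr (B i j) with hc
  have hc0 : 0 ≤ c := Finset.sum_nonneg fun i _ => Finset.sum_nonneg fun j _ => nS_nonneg hr _
  have hBc : ∀ i j, nr (B i j) ≤ c := fun i j =>
    (Finset.single_le_sum (f := fun j => nr (B i j)) (fun _ _ => nS_nonneg hr _)
      (Finset.mem_univ j)).trans (Finset.single_le_sum (f := fun i => ∑ j, nr (B i j))
      (fun _ _ => Finset.sum_nonneg fun _ _ => nS_nonneg hr _) (Finset.mem_univ i))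
  set m : ℝ := ((Fintype.card J : ℕ) : ℝ) with hm
  have hm0 : 0 ≤ m := Nat.cast_nonneg _
  have hε : 0 < δ / (m * c + 1) := by positivity
  obtain ⟨κ, hκ, hκ'⟩ := exists_kappa (J := J) (P := fun i j κ => ∀ (s s' : ℝ) (h0 : 0 ≤ s)
    (h1 : s ≤ 1) (h0' : 0 ≤ s') (h1' : s' ≤ 1), |s - s'| ≤ κ →
    nr (sc r hr s h0 h1 (V i j) - sc r hr s' h0' h1' (V i j)) ≤ δ / (m * c + 1))
    (fun i j x y hxy h s s' h0 h1 h0' h1' hs => h s s' h0 h1 h0' h1' (hs.trans hxy))
    (fun i j => sc_close hr (V i j) hε)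
  obtain ⟨n₀, hn₀⟩ := exists_nat_gt (1 / κ)
  set Q : ℕ := n₀ + 1 with hQ
  have hQR : (0 : ℝ) < Q := by exact_mod_cast Nat.succ_pos n₀
  have hQκ : 1 / (Q : ℝ) ≤ κ := by
    have h1 : 1 / κ < Q := lt_of_lt_of_le hn₀ (by exact_mod_cast Nat.le_succ n₀)
    rw [div_lt_iff₀ hκ] at h1
    rw [div_le_iff₀ hQR]
    nlinarith
  have key : ∀ k : ℕ, ∀ (h0 : (0 : ℝ) ≤ (k : ℝ) / Q) (h1 : (k : ℝ) / Q ≤ 1),
      V.map (sc r hr ((k : ℝ) / Q) h0 h1) ∈ EM J (Sr r hr) := by
    intro k
    induction k with
    | zero =>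
      intro h0 h1
      have : V.map (sc r hr (((0 : ℕ) : ℝ) / Q) h0 h1) = 1 := by
        ext i j : 2
        rw [Matrix.map_apply, sc_coe]
        have hz : (((0 : ℕ) : ℝ) / Q) = 0 := by simp
        rw [hz, PowerSeries.rescale_zero, RingHom.comp_apply, hV0]
        by_cases hij : i = j
        · subst hij
          rw [Matrix.one_apply_eq, Matrix.one_apply_eq, map_one]; rfl
        · rw [Matrix.one_apply_ne hij, Matrix.one_apply_ne hij, map_zero]; rfl
      rw [this]
      exact one_mem _
    | succ k ih =>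
      intro h0 h1
      have hk0 : (0 : ℝ) ≤ (k : ℝ) / Q := by positivity
      have hk1 : (k : ℝ) / Q ≤ 1 := by
        refine le_trans ?_ h1
        push_cast
        gcongr
        linarith
      have ih' := ih hk0 hk1
      set A := V.map (sc r hr (((k + 1 : ℕ) : ℝ) / Q) h0 h1) with hA
      set A' := V.map (sc r hr ((k : ℝ) / Q) hk0 hk1) with hA'
      set B' := B.map (sc r hr ((k : ℝ) / Q) hk0 hk1) with hB'
      have hAB : A' * B' = 1 := by
        rw [hA', hB', ← Matrix.map_mul, hVB, Matrix.map_one _ (map_zero _) (map_one _)]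
      have hBA : B' * A' = 1 := by
        rw [hA', hB', ← Matrix.map_mul, hBV, Matrix.map_one _ (map_zero _) (map_one _)]
      have hdec : A = (A * B') * A' := by rw [Matrix.mul_assoc, hBA, Matrix.mul_one]
      rw [hdec]
      refine mul_mem (hnear _ ?_ ?_) ih'
      · have hd1 : A.det = 1 := by
          have : A.det = sc r hr (((k + 1 : ℕ) : ℝ) / Q) h0 h1 V.det := by
            rw [RingHom.map_det]; rfl
          rw [this, hV, map_one]
        have hd2 : B'.det = 1 := by
          have hd3 : A'.det = 1 := by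
            have : A'.det = sc r hr ((k : ℝ) / Q) hk0 hk1 V.det := by
              rw [RingHom.map_det]; rfl
            rw [this, hV, map_one]
          have := congrArg Matrix.det hAB
          rw [det_mul, hd3, one_mul, det_one] at this
          exact this
        rw [det_mul, hd1, hd2, one_mul]
      · intro i j
        have h3 : A * B' - 1 = (A - A') * B' := by rw [Matrix.sub_mul, hAB]
        rw [h3, Matrix.mul_apply]
        have hN := snorm_nr hr
        have hss : |(((k + 1 : ℕ) : ℝ) / Q) - (k : ℝ) / Q| ≤ κ := by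
          have : (((k + 1 : ℕ) : ℝ) / Q) - (k : ℝ) / Q = 1 / Q := by
            push_cast; ring
          rw [this, abs_of_pos (by positivity)]
          exact hQκ
        have hterm : ∀ l, nr ((A - A') i l * B' l j) ≤ δ / (m * c + 1) * c := by
          intro l
          refine hN.mul_le hε.le ?_ ?_
          · exact hκ' i l _ _ h0 h1 hk0 hk1 hss
          · exact (nr_sc_le hr hk0 hk1 (B l j)).trans (hBc l j)
        have hsum : ∀ s : Finset J, nr (∑ l ∈ s, (A - A') i l * B' l j)
            ≤ ∑ l ∈ s, δ / (m * c + 1) * c := by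
          intro s
          induction s using Finset.induction_on with
          | empty => rw [Finset.sum_empty, Finset.sum_empty, hN.zero]
          | insert a s ha ihs =>
            rw [Finset.sum_insert ha, Finset.sum_insert ha]
            exact (hN.add _ _).trans (add_le_add (hterm a) ihs)
        refine (hsum Finset.univ).trans ?_
        rw [Finset.sum_const, nsmul_eq_mul, Finset.card_univ, ← hm]
        have h4 : 0 < m * c + 1 := by positivity
        have h5 : m * (δ / (m * c + 1) * c) = δ * ((m * c) / (m * c + 1)) := by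
          field_simp
        rw [h5]
        have h6 : (m * c) / (m * c + 1) ≤ 1 := by
          rw [div_le_one h4]; linarith
        nlinarith
  have hQ1 : ((Q : ℕ) : ℝ) / Q = 1 := div_self hQR.ne'
  have hfin := key Q (by rw [hQ1]; norm_num) (by rw [hQ1])
  have hid : V.map (sc r hr (((Q : ℕ) : ℝ) / Q) (by rw [hQ1]; norm_num) (by rw [hQ1])) = V := by
    ext i j : 2
    rw [Matrix.map_apply, sc_coe]
    simp only [hQ1]
    rw [PowerSeries.rescale_one]
    rfl
  rw [hid] at hfin
  exact hfin

/-- polynomials as elements of `Sr r` -/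
noncomputable def pS (r : ℝ) (hr : 0 ≤ r) : ℝ[X] →+* Sr r hr :=
  (cP ℝ).codRestrict (Sr r hr) (fun f => hasN_poly r f)

theorem pS_coe (hr : 0 ≤ r) (f : ℝ[X]) : ((pS r hr f : Sr r hr) : PowerSeries ℝ) = (f : PowerSeries ℝ) := rfl

/-- approximation by products of transvections over polynomials, in the norm and `X`-adically -/
theorem trunc_Sr (hr : 0 ≤ r) {A : Matrix J J (Sr r hr)} (hA : A ∈ EM J (Sr r hr)) (T : ℕ) :
    ∀ ε : ℝ, 0 < ε → ∃ G ∈ EM J ℝ[X], ∀ i j,
      (∀ d < T, PowerSeries.coeff d (((G.map (pS r hr) - A) i j : Sr r hr) : PowerSeries ℝ) = 0) ∧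
      nr ((G.map (pS r hr) - A) i j) ≤ ε := by
  have hN := snorm_nr hr
  induction hA using Submonoid.closure_induction with
  | mem x hx =>
    intro ε hε
    obtain ⟨i, j, h, c, rfl⟩ := hx
    obtain ⟨D₀, hD₀⟩ := exists_tail hr c hε
    set D := max T D₀ with hD
    refine ⟨transvection i j (PowerSeries.trunc D (c : PowerSeries ℝ)), tr_mem h _, ?_⟩
    intro a b
    have h1 : ((transvection i j (PowerSeries.trunc D (c : PowerSeries ℝ))).map (pS r hr)
        - transvection i j c) a b
        = if i = a ∧ j = b then pS r hr (PowerSeries.trunc D (c : PowerSeries ℝ)) - c else 0 := by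
      rw [Matrix.sub_apply, Matrix.map_apply]
      simp only [transvection, Matrix.add_apply, Matrix.one_apply, Matrix.single_apply, map_add]
      by_cases h2 : i = a ∧ j = b
      · rw [if_pos h2, if_pos h2, if_pos h2]
        split_ifs <;> simp
      · rw [if_neg h2, if_neg h2, if_neg h2]
        split_ifs <;> simp
    rw [h1]
    split_ifs
    · set g : Sr r hr := pS r hr (PowerSeries.trunc D (c : PowerSeries ℝ)) - c with hg
      have hcoef : ∀ d, PowerSeries.coeff d (g : PowerSeries ℝ)
          = if d < D then 0 else - PowerSeries.coeff d (c : PowerSeries ℝ) := by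
        intro d
        have h2 : (g : PowerSeries ℝ) = ((PowerSeries.trunc D (c : PowerSeries ℝ) : ℝ[X]) : PowerSeries ℝ)
            - (c : PowerSeries ℝ) := rfl
        rw [h2, map_sub, Polynomial.coeff_coe, PowerSeries.coeff_trunc]
        split_ifs
        · rw [sub_self]
        · rw [zero_sub]
      constructor
      · intro d hd
        rw [hcoef, if_pos (lt_of_lt_of_le hd (le_max_left _ _))]
      · refine le_trans (le_of_eq ?_) (hD₀ D (le_max_right _ _))
        unfold nr nS
        rw [← Summable.sum_add_tsum_nat_add D (Sr_has g), Finset.sum_eq_zero, zero_add]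
        · refine tsum_congr fun n => ?_
          rw [hcoef, if_neg (by omega), norm_neg]
        · intro n hn
          rw [hcoef, if_pos (Finset.mem_range.1 hn), norm_zero, zero_mul]
    · refine ⟨fun d _ => ?_, ?_⟩
      · change PowerSeries.coeff d (0 : PowerSeries ℝ) = 0
        rw [map_zero]
      · rw [hN.zero]; exact hε.le
  | one =>
    intro ε hε
    refine ⟨1, one_mem _, ?_⟩
    intro a b
    rw [Matrix.map_one _ (map_zero _) (map_one _), sub_self]
    refine ⟨fun d _ => ?_, ?_⟩
    · change PowerSeries.coeff d (0 : PowerSeries ℝ) = 0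
      rw [map_zero]
    · rw [Matrix.zero_apply, hN.zero]; exact hε.le
  | mul x y _ _ hx hy =>
    intro ε hε
    set m : ℝ := ((Fintype.card J : ℕ) : ℝ) with hm
    have hm0 : 0 ≤ m := Nat.cast_nonneg _
    set cx : ℝ := ∑ i, ∑ j, nr (x i j) with hcx
    set cy : ℝ := ∑ i, ∑ j, nr (y i j) with hcy
    have hbd : ∀ (z : Matrix J J (Sr r hr)) (i j : J), nr (z i j) ≤ ∑ i, ∑ j, nr (z i j) :=
      fun z i j => (Finset.single_le_sum (f := fun j => nr (z i j)) (fun _ _ => nS_nonneg hr _)
        (Finset.mem_univ j)).trans (Finset.single_le_sum (f := fun i => ∑ j, nr (z i j))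
        (fun _ _ => Finset.sum_nonneg fun _ _ => nS_nonneg hr _) (Finset.mem_univ i))
    have hcx0 : 0 ≤ cx := Finset.sum_nonneg fun i _ => Finset.sum_nonneg fun j _ => nS_nonneg hr _
    have hcy0 : 0 ≤ cy := Finset.sum_nonneg fun i _ => Finset.sum_nonneg fun j _ => nS_nonneg hr _
    have he1 : 0 < ε / (2 * (m * (cy + 1) + 1)) := by positivity
    have he2 : 0 < min 1 (ε / (2 * (m * cx + 1))) := lt_min one_pos (by positivity)
    obtain ⟨G, hG, h1⟩ := hx _ he1
    obtain ⟨H, hH, h2⟩ := hy _ he2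
    refine ⟨G * H, mul_mem hG hH, ?_⟩
    intro a b
    have h3 : (G * H).map (pS r hr) - x * y
        = (G.map (pS r hr) - x) * H.map (pS r hr) + x * (H.map (pS r hr) - y) := by
      rw [Matrix.map_mul, Matrix.sub_mul, Matrix.mul_sub]
      abel
    have hcoe_sum : ∀ (s : Finset J) (f : J → Sr r hr), ((∑ l ∈ s, f l : Sr r hr) : PowerSeries ℝ)
        = ∑ l ∈ s, (f l : PowerSeries ℝ) := fun s f => by
      exact map_sum (Sr r hr).subtype f s
    rw [h3, Matrix.add_apply, Matrix.mul_apply, Matrix.mul_apply]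
    constructor
    · intro d hd
      have h4 : ∀ (u v : Sr r hr), (∀ e < T, PowerSeries.coeff e (u : PowerSeries ℝ) = 0) →
          PowerSeries.coeff d ((u * v : Sr r hr) : PowerSeries ℝ) = 0 := by
        intro u v hu
        change PowerSeries.coeff d ((u : PowerSeries ℝ) * (v : PowerSeries ℝ)) = 0
        rw [PowerSeries.coeff_mul]
        refine Finset.sum_eq_zero fun p hp => ?_
        rw [Finset.HasAntidiagonal.mem_antidiagonal] at hp
        rw [hu p.1 (by omega), zero_mul]
      change PowerSeries.coeff d (((∑ l, (G.map (pS r hr) - x) a l * (H.map (pS r hr)) l b : Sr r hr) :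
        PowerSeries ℝ) + ((∑ l, x a l * (H.map (pS r hr) - y) l b : Sr r hr) : PowerSeries ℝ)) = 0
      rw [map_add, hcoe_sum, hcoe_sum, map_sum, map_sum, Finset.sum_eq_zero, Finset.sum_eq_zero, add_zero]
      · intro l _
        rw [mul_comm]
        exact h4 _ _ (h2 l b).1
      · intro l _
        exact h4 _ _ (h1 a l).1
    · have hsumle : ∀ (f : J → Sr r hr) (K : ℝ), (∀ l, nr (f l) ≤ K) → nr (∑ l, f l) ≤ m * K := by
        intro f K hf
        have : ∀ s : Finset J, nr (∑ l ∈ s, f l) ≤ ∑ l ∈ s, K := by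
          intro s
          induction s using Finset.induction_on with
          | empty => rw [Finset.sum_empty, Finset.sum_empty, hN.zero]
          | insert a s ha ihs =>
            rw [Finset.sum_insert ha, Finset.sum_insert ha]
            exact (hN.add _ _).trans (add_le_add (hf a) ihs)
        refine (this Finset.univ).trans (le_of_eq ?_)
        rw [Finset.sum_const, nsmul_eq_mul, Finset.card_univ, ← hm]
      have hHn : ∀ l, nr (H.map (pS r hr) l b) ≤ cy + 1 := by
        intro l
        have h5 : H.map (pS r hr) l b = (H.map (pS r hr) - y) l b + y l b := by simp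
        rw [h5]
        have h6 := hN.add ((H.map (pS r hr) - y) l b) (y l b)
        have h7 := (h2 l b).2.trans (min_le_left _ _)
        have h8 := hbd y l b
        linarith
      have hA1 := hsumle (fun l => (G.map (pS r hr) - x) a l * H.map (pS r hr) l b)
        (ε / (2 * (m * (cy + 1) + 1)) * (cy + 1)) (fun l => hN.mul_le he1.le (h1 a l).2 (hHn l))
      have hA2 := hsumle (fun l => x a l * (H.map (pS r hr) - y) l b)
        (cx * (ε / (2 * (m * cx + 1)))) (fun l => hN.mul_le hcx0 (hbd x a l)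
          ((h2 l b).2.trans (min_le_right _ _)))
      have hA3 : m * (ε / (2 * (m * (cy + 1) + 1)) * (cy + 1)) ≤ ε / 2 := by
        have h9 : m * (ε / (2 * (m * (cy + 1) + 1)) * (cy + 1))
            = ε / 2 * ((m * (cy + 1)) / (m * (cy + 1) + 1)) := by
          field_simp
        rw [h9]
        have h10 : (m * (cy + 1)) / (m * (cy + 1) + 1) ≤ 1 := by
          rw [div_le_one (by positivity)]; linarith
        nlinarith
      have hA4 : m * (cx * (ε / (2 * (m * cx + 1)))) ≤ ε / 2 := by
        have h9 : m * (cx * (ε / (2 * (m * cx + 1)))) = ε / 2 * ((m * cx) / (m * cx + 1)) := by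
          field_simp
        rw [h9]
        have h10 : (m * cx) / (m * cx + 1) ≤ 1 := by
          rw [div_le_one (by positivity)]; linarith
        nlinarith
      refine (hN.add _ _).trans ?_
      linarith

end

end Pool.Agent.FTA
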